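import Pool.Agent.TH794.QD.Evo
import Pool.Agent.V11324.GL.Green

/-! Existence of the evolution for every real potential. -/

set_option autoImplicit false

open scoped BigOperators Topology
open MeasureTheory Filter Set

namespace Pool.Agent.V11324.GD

open Pool.Agent.W788.LD.Spec (S)
open Pool.Agent.W788
open Pool.Agent.H4R2
open Pool.Agent.H4R2.LO (Zd)
open Pool.Agent.TH794.QD (Sol)

variable {d : ℕ}

/-- the cut-off -/
noncomputable def wR (R : ℝ) (x : Zd d) : ℝ := max (1 - ‖x‖ / R) 0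

theorem wR_nonneg (R : ℝ) (x : Zd d) : 0 ≤ wR R x := le_max_right _ _

theorem wR_le (R : ℝ) (hR : 0 < R) (x : Zd d) : wR R x ≤ 1 := by
  unfold wR
  refine max_le ?_ zero_le_one
  have : 0 ≤ ‖x‖ / R := by positivity
  linarith

theorem wR_zero (R : ℝ) (hR : 0 < R) (x : Zd d) (h : R < ‖x‖) : wR R x = 0 := by
  unfold wR
  apply max_eq_right
  have : 1 ≤ ‖x‖ / R := by
    rw [le_div_iff₀ hR]
    linarith
  linarith

theorem wR_diff (R : ℝ) (hR : 0 < R) (x y : Zd d) : |wR R x - wR R y| ≤ ‖x - y‖ / R := by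
  unfold wR
  refine (abs_max_sub_max_le_abs (1 - ‖x‖ / R) (1 - ‖y‖ / R) 0).trans ?_
  have e1 : (1 - ‖x‖ / R) - (1 - ‖y‖ / R) = (‖y‖ - ‖x‖) / R := by ring
  rw [e1, abs_div, abs_of_pos hR]
  apply div_le_div_of_nonneg_right _ hR.le
  rw [abs_sub_comm]
  exact abs_norm_sub_norm_le x y

theorem single_norm (i : Fin d) : ‖(Pi.single i 1 : Zd d)‖ ≤ 1 := by
  rw [pi_norm_le_iff_of_nonneg zero_le_one]
  intro j
  by_cases h : j = i
  · subst h
    simp
  · rw [Pi.single_eq_of_ne h]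
    simp

/-- the commutator with the cut-off -/
theorem comm_bd (R : ℝ) (hR : 0 < R) (u : Zd d → ℂ) (hu : Summable fun x => ‖u x‖ ^ 2)
    (hu1 : ∑' x, ‖u x‖ ^ 2 ≤ 1) :
    |(∑' x, (starRingEnd ℂ) ((wR R x : ℂ) * u x) * S u x).im| ≤ d / R := by
  have hP : Summable fun x => ‖(wR R x : ℂ) * u x‖ ^ 2 := by
    refine Summable.of_nonneg_of_le (fun x => sq_nonneg _) (fun x => ?_) hu
    rw [norm_mul, Complex.norm_real, Real.norm_of_nonneg (wR_nonneg R x), mul_pow]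
    have h1 : wR R x ^ 2 ≤ 1 := pow_le_one₀ (wR_nonneg R x) (wR_le R hR x)
    exact mul_le_of_le_one_left (sq_nonneg _) h1
  obtain ⟨s1, s2, s3⟩ := LD.Spec.symm (fun x => (wR R x : ℂ) * u x) u hP hu
  obtain ⟨A, hA⟩ : ∃ A, A = ∑' x, (starRingEnd ℂ) ((wR R x : ℂ) * u x) * S u x := ⟨_, rfl⟩
  obtain ⟨N, hN⟩ : ∃ N, N = ∑' x, ‖u x‖ ^ 2 := ⟨_, rfl⟩
  have hN0 : 0 ≤ N := by
    rw [hN]
    exact tsum_nonneg fun x => sq_nonneg _
  rw [← hN] at hu1
  have hNs : HasSum (fun x => ‖u x‖ ^ 2) N := by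
    rw [hN]
    exact hu.hasSum
  have hsh : ∀ e : Zd d, HasSum (fun x => ‖u (x + e)‖ ^ 2) N := by
    intro e
    have h1 : HasSum ((fun x => ‖u x‖ ^ 2) ∘ (Equiv.addRight e)) N :=
      (Equiv.addRight e).hasSum_iff.2 hNs
    exact h1
  have hsh' : ∀ e : Zd d, HasSum (fun x => ‖u (x - e)‖ ^ 2) N := by
    intro e
    have h1 := hsh (-e)
    simpa only [sub_eq_add_neg] using h1
  have e1 : A + A = ∑' x, ((starRingEnd ℂ) ((wR R x : ℂ) * u x) * S u x +
      (starRingEnd ℂ) (S (fun x => (wR R x : ℂ) * u x) x) * u x) := by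
    rw [s1.tsum_add s2, ← s3, hA]
  have e2 : (A + A).im = ∑' x, ((starRingEnd ℂ) ((wR R x : ℂ) * u x) * S u x +
      (starRingEnd ℂ) (S (fun x => (wR R x : ℂ) * u x) x) * u x).im := by
    rw [e1, Complex.im_tsum (s1.add s2)]
  have hg : HasSum (fun x => R⁻¹ * ∑ i : Fin d, ((‖u x‖ ^ 2 + ‖u (x + Pi.single i 1)‖ ^ 2) / 2 +
      (‖u x‖ ^ 2 + ‖u (x - Pi.single i 1)‖ ^ 2) / 2)) (R⁻¹ * ∑ _i : Fin d, ((N + N) / 2 +
        (N + N) / 2)) := by
    refine HasSum.mul_left _ (hasSum_sum fun i _ => ?_)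
    exact ((hNs.add (hsh _)).div_const 2).add ((hNs.add (hsh' _)).div_const 2)
  have h1 : ‖(A + A).im‖ ≤ R⁻¹ * ∑ _i : Fin d, ((N + N) / 2 + (N + N) / 2) := by
    rw [e2]
    refine tsum_of_norm_bounded hg fun x => ?_
    have e3 : ((starRingEnd ℂ) ((wR R x : ℂ) * u x) * S u x +
        (starRingEnd ℂ) (S (fun x => (wR R x : ℂ) * u x) x) * u x).im =
        ((starRingEnd ℂ) (u x) * ((wR R x : ℂ) * S u x - S (fun x => (wR R x : ℂ) * u x) x)).im := by
      simp only [Complex.add_im, Complex.mul_im, Complex.mul_re, Complex.conj_re, Complex.conj_im,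
        Complex.sub_re, Complex.sub_im, Complex.ofReal_re, Complex.ofReal_im]
      ring
    rw [e3]
    have e4 : (wR R x : ℂ) * S u x - S (fun x => (wR R x : ℂ) * u x) x =
        ∑ i : Fin d, (((wR R x - wR R (x + Pi.single i 1) : ℝ) : ℂ) * u (x + Pi.single i 1) +
          ((wR R x - wR R (x - Pi.single i 1) : ℝ) : ℂ) * u (x - Pi.single i 1)) := by
      unfold S
      rw [Finset.mul_sum, ← Finset.sum_sub_distrib]
      refine Finset.sum_congr rfl fun i _ => ?_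
      push_cast
      ring
    rw [Real.norm_eq_abs]
    refine (Complex.abs_im_le_norm _).trans ?_
    rw [norm_mul, Complex.norm_conj, e4, Finset.mul_sum]
    refine (mul_le_mul_of_nonneg_left (norm_sum_le _ _) (norm_nonneg _)).trans ?_
    rw [Finset.mul_sum]
    refine Finset.sum_le_sum fun i _ => ?_
    have k1 : |wR R x - wR R (x + Pi.single i 1)| ≤ R⁻¹ := by
      refine (wR_diff R hR _ _).trans ?_
      rw [div_eq_mul_inv]
      have : ‖x - (x + Pi.single i 1)‖ ≤ 1 := by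
        rw [sub_add_cancel_left, norm_neg]
        exact single_norm i
      exact mul_le_of_le_one_left (inv_pos.2 hR).le this
    have k2 : |wR R x - wR R (x - Pi.single i 1)| ≤ R⁻¹ := by
      refine (wR_diff R hR _ _).trans ?_
      rw [div_eq_mul_inv]
      have : ‖x - (x - Pi.single i 1)‖ ≤ 1 := by
        rw [sub_sub_cancel]
        exact single_norm i
      exact mul_le_of_le_one_left (inv_pos.2 hR).le this
    have hRi : 0 < R⁻¹ := inv_pos.2 hR
    have q1 := norm_nonneg (u x)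
    have q2 := norm_nonneg (u (x + Pi.single i 1))
    have q3 := norm_nonneg (u (x - Pi.single i 1))
    calc ‖u x‖ * ‖((wR R x - wR R (x + Pi.single i 1) : ℝ) : ℂ) * u (x + Pi.single i 1) +
          ((wR R x - wR R (x - Pi.single i 1) : ℝ) : ℂ) * u (x - Pi.single i 1)‖ ≤
        ‖u x‖ * (R⁻¹ * ‖u (x + Pi.single i 1)‖ + R⁻¹ * ‖u (x - Pi.single i 1)‖) := by
          apply mul_le_mul_of_nonneg_left _ q1
          refine (norm_add_le _ _).trans ?_
          rw [norm_mul, norm_mul, Complex.norm_real, Complex.norm_real, Real.norm_eq_abs,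
            Real.norm_eq_abs]
          gcongr
      _ ≤ _ := by
          rw [← mul_add, mul_left_comm]
          apply mul_le_mul_of_nonneg_left _ hRi.le
          nlinarith [sq_nonneg (‖u x‖ - ‖u (x + Pi.single i 1)‖),
            sq_nonneg (‖u x‖ - ‖u (x - Pi.single i 1)‖)]
  rw [Real.norm_eq_abs, Complex.add_im, ← two_mul, abs_mul, abs_two] at h1
  have h2 : R⁻¹ * ∑ _i : Fin d, ((N + N) / 2 + (N + N) / 2) ≤ 2 * (d / R) := by
    rw [Finset.sum_const, Finset.card_univ, Fintype.card_fin, nsmul_eq_mul]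
    have e5 : R⁻¹ * ((d : ℝ) * ((N + N) / 2 + (N + N) / 2)) = 2 * (d / R) * N := by
      field_simp
      ring
    rw [e5]
    exact mul_le_of_le_one_right (by positivity) hu1
  rw [← hA]
  linarith

/-- the mass in a large box -/
theorem cut_mass (V : Zd d → ℝ) (ψ : ℝ → Zd d → ℂ)
    (ho : ∀ s x, HasDerivAt (fun s => ψ s x) (-Complex.I * (-S (ψ s) x + (V x : ℂ) * ψ s x)) s)
    (hb : ∀ s (F : Finset (Zd d)), ∑ x ∈ F, ‖ψ s x‖ ^ 2 ≤ 1) (s R : ℝ) (hR : 0 < R) :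
    |∑ x ∈ LO.bx (0 : Zd d) ⌊R⌋₊, wR R x * ‖ψ s x‖ ^ 2 -
      ∑ x ∈ LO.bx (0 : Zd d) ⌊R⌋₊, wR R x * ‖ψ 0 x‖ ^ 2| ≤ 2 * (d / R) * |s| := by
  have hs : ∀ s, Summable fun x => ‖ψ s x‖ ^ 2 := fun s =>
    summable_of_sum_le (c := 1) (fun x => sq_nonneg _) (hb s)
  have hle : ∀ s, ∑' x, ‖ψ s x‖ ^ 2 ≤ 1 := fun s => Real.tsum_le_of_sum_le (fun x => sq_nonneg _) (hb s)
  obtain ⟨F, hF⟩ : ∃ F : Finset (Zd d), F = LO.bx (0 : Zd d) ⌊R⌋₊ := ⟨_, rfl⟩
  rw [← hF]
  have hFm : ∀ x : Zd d, x ∉ F → wR R x = 0 := by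
    intro x hx
    apply wR_zero R hR
    by_contra hcon
    push Not at hcon
    apply hx
    rw [hF]
    exact Gen3.norm_zd x R hcon
  have hder : ∀ r, HasDerivAt (fun s => ∑ x ∈ F, wR R x * ‖ψ s x‖ ^ 2)
      (-2 * (∑' x, (starRingEnd ℂ) ((wR R x : ℂ) * ψ r x) * S (ψ r) x).im) r := by
    intro r
    have e1 : ∑' x, (starRingEnd ℂ) ((wR R x : ℂ) * ψ r x) * S (ψ r) x =
        ∑ x ∈ F, (starRingEnd ℂ) ((wR R x : ℂ) * ψ r x) * S (ψ r) x := by
      refine tsum_eq_sum fun x hx => ?_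
      rw [hFm x hx]
      simp
    rw [e1, Complex.im_sum, Finset.mul_sum]
    refine HasDerivAt.fun_sum fun x _ => ?_
    refine ((ho r x).norm_sq.const_mul (wR R x)).congr_deriv ?_
    rw [Complex.inner]
    simp only [Complex.mul_im, Complex.mul_re, Complex.conj_re, Complex.conj_im,
      Complex.ofReal_re, Complex.ofReal_im, Complex.neg_re, Complex.neg_im, Complex.I_re,
      Complex.I_im, Complex.add_re, Complex.add_im]
    ring
  have hbd : ∀ r ∈ (univ : Set ℝ), ‖-2 * (∑' x, (starRingEnd ℂ) ((wR R x : ℂ) * ψ r x) *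
      S (ψ r) x).im‖ ≤ 2 * (d / R) := by
    intro r _
    have h1 := comm_bd R hR (ψ r) (hs r) (hle r)
    rw [norm_mul, Real.norm_eq_abs, Real.norm_eq_abs, abs_neg, abs_two]
    linarith
  have hmv := Convex.norm_image_sub_le_of_norm_hasDerivWithin_le
    (fun r _ => (hder r).hasDerivWithinAt) hbd convex_univ (mem_univ (0 : ℝ)) (mem_univ s)
  rw [Real.norm_eq_abs, Real.norm_eq_abs, sub_zero] at hmv
  exact hmv

/-- conservation of the norm -/
theorem norm_cons (V : Zd d → ℝ) (a : Zd d) (ψ : ℝ → Zd d → ℂ)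
    (h0 : ∀ x, ψ 0 x = if x = a then 1 else 0)
    (ho : ∀ s x, HasDerivAt (fun s => ψ s x) (-Complex.I * (-S (ψ s) x + (V x : ℂ) * ψ s x)) s)
    (hb : ∀ s (F : Finset (Zd d)), ∑ x ∈ F, ‖ψ s x‖ ^ 2 ≤ 1) (s : ℝ) :
    HasSum (fun x => ‖ψ s x‖ ^ 2) 1 := by
  have hs : ∀ s, Summable fun x => ‖ψ s x‖ ^ 2 := fun s =>
    summable_of_sum_le (c := 1) (fun x => sq_nonneg _) (hb s)
  have hle : ∀ s, ∑' x, ‖ψ s x‖ ^ 2 ≤ 1 := fun s => Real.tsum_le_of_sum_le (fun x => sq_nonneg _) (hb s)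
  have hkey : ∀ R : ℝ, ‖a‖ + 1 ≤ R → 1 - (‖a‖ + 2 * d * |s|) / R ≤ ∑' x, ‖ψ s x‖ ^ 2 := by
    intro R hRa
    have hR : 0 < R := by
      have := norm_nonneg a
      linarith
    have hmv := cut_mass V ψ ho hb s R hR
    obtain ⟨F, hF⟩ : ∃ F : Finset (Zd d), F = LO.bx (0 : Zd d) ⌊R⌋₊ := ⟨_, rfl⟩
    rw [← hF] at hmv
    have hN0 : ∑ x ∈ F, wR R x * ‖ψ 0 x‖ ^ 2 = wR R a := by
      have haF : a ∈ F := by
        rw [hF]
        exact Gen3.norm_zd a R (by linarith)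
      rw [Finset.sum_eq_single a]
      · rw [h0 a, if_pos rfl]
        simp
      · intro x _ hx
        rw [h0 x, if_neg hx]
        simp
      · intro h
        exact absurd haF h
    rw [hN0] at hmv
    have h2 : 1 - ‖a‖ / R ≤ wR R a := le_max_left _ _
    have h3 : ∑ x ∈ F, wR R x * ‖ψ s x‖ ^ 2 ≤ ∑' x, ‖ψ s x‖ ^ 2 := by
      refine le_trans (Finset.sum_le_sum fun x _ => ?_) ((hs s).sum_le_tsum F fun x _ => sq_nonneg _)
      exact mul_le_of_le_one_left (sq_nonneg _) (wR_le R hR x)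
    have h4 := (abs_le.1 hmv).1
    have e2 : (‖a‖ + 2 * d * |s|) / R = ‖a‖ / R + 2 * (d / R) * |s| := by
      field_simp
    rw [e2]
    linarith
  have hge : 1 ≤ ∑' x, ‖ψ s x‖ ^ 2 := by
    have hl : Tendsto (fun R : ℝ => 1 - (‖a‖ + 2 * d * |s|) / R) atTop (𝓝 (1 - 0)) :=
      tendsto_const_nhds.sub (tendsto_const_nhds.div_atTop tendsto_id)
    rw [sub_zero] at hl
    refine le_of_tendsto hl ?_
    filter_upwards [eventually_ge_atTop (‖a‖ + 1)] with R hR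
    exact hkey R hR
  have h5 := (hs s).hasSum
  rwa [le_antisymm (hle s) hge] at h5

/-- **uniqueness of the evolution** -/
theorem sol_unique (V : Zd d → ℝ) (a : Zd d) (ψ φ : ℝ → Zd d → ℂ) (h1 : Sol d V a ψ)
    (h2 : Sol d V a φ) : ψ = φ := by
  obtain ⟨χ, hχ⟩ : ∃ χ : ℝ → Zd d → ℂ, χ = fun s x => (1 / 2 : ℂ) * (ψ s x - φ s x) := ⟨_, rfl⟩
  have hχx : ∀ s x, χ s x = (1 / 2 : ℂ) * (ψ s x - φ s x) := fun s x => by rw [hχ]
  have ho : ∀ s x, HasDerivAt (fun s => χ s x) (-Complex.I * (-S (χ s) x + (V x : ℂ) * χ s x))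
      s := by
    intro s x
    have h3 := ((h1.ode s x).sub (h2.ode s x)).const_mul (1 / 2 : ℂ)
    have e1 : (fun s => χ s x) = fun s => (1 / 2 : ℂ) * (ψ s x - φ s x) := by
      funext s
      rw [hχx]
    rw [e1]
    refine h3.congr_deriv ?_
    have e2 : S (χ s) x = (1 / 2 : ℂ) * (S (ψ s) x - S (φ s) x) := by
      unfold S
      rw [← Finset.sum_sub_distrib, Finset.mul_sum]
      refine Finset.sum_congr rfl fun i _ => ?_
      rw [hχx, hχx]
      ring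
    rw [e2, hχx]
    ring
  have hb : ∀ s (F : Finset (Zd d)), ∑ x ∈ F, ‖χ s x‖ ^ 2 ≤ 1 := by
    intro s F
    have k1 := (h1.norm s).summable.sum_le_tsum F fun x _ => sq_nonneg _
    have k2 := (h2.norm s).summable.sum_le_tsum F fun x _ => sq_nonneg _
    rw [(h1.norm s).tsum_eq] at k1
    rw [(h2.norm s).tsum_eq] at k2
    have k3 : ∑ x ∈ F, ‖χ s x‖ ^ 2 ≤ ∑ x ∈ F, (1 / 2 * ‖ψ s x‖ ^ 2 + 1 / 2 * ‖φ s x‖ ^ 2) := by
      refine Finset.sum_le_sum fun x _ => ?_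
      rw [hχx, norm_mul]
      have e1 : ‖(1 / 2 : ℂ)‖ = 1 / 2 := by simp
      rw [e1]
      have k4 := norm_sub_le (ψ s x) (φ s x)
      have k5 := norm_nonneg (ψ s x - φ s x)
      have k6 : ‖ψ s x - φ s x‖ ^ 2 ≤ (‖ψ s x‖ + ‖φ s x‖) ^ 2 := pow_le_pow_left₀ k5 k4 2
      nlinarith [sq_nonneg (‖ψ s x‖ - ‖φ s x‖)]
    rw [Finset.sum_add_distrib, ← Finset.mul_sum, ← Finset.mul_sum] at k3
    linarith
  have h00 : ∀ x, χ 0 x = 0 := by
    intro x
    rw [hχx, h1.init, h2.init, sub_self, mul_zero]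
  funext s x
  have hkey : ∀ R : ℝ, ‖x‖ + 1 ≤ R → (1 - ‖x‖ / R) * ‖χ s x‖ ^ 2 ≤ 2 * (d / R) * |s| := by
    intro R hRx
    have hR : 0 < R := by
      have := norm_nonneg x
      linarith
    have hmv := cut_mass V χ ho hb s R hR
    have e1 : ∑ x ∈ LO.bx (0 : Zd d) ⌊R⌋₊, wR R x * ‖χ 0 x‖ ^ 2 = 0 := by
      refine Finset.sum_eq_zero fun y _ => ?_
      rw [h00]
      simp
    rw [e1, sub_zero] at hmv
    have h3 := Finset.single_le_sum (f := fun x => wR R x * ‖χ s x‖ ^ 2)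
      (s := LO.bx (0 : Zd d) ⌊R⌋₊) (fun y _ => mul_nonneg (wR_nonneg R y) (sq_nonneg _))
      (Gen3.norm_zd x R (by linarith))
    have h4 : (1 - ‖x‖ / R) * ‖χ s x‖ ^ 2 ≤ wR R x * ‖χ s x‖ ^ 2 :=
      mul_le_mul_of_nonneg_right (le_max_left _ _) (sq_nonneg _)
    exact h4.trans (h3.trans ((le_abs_self _).trans hmv))
  have hz : ‖χ s x‖ ^ 2 ≤ 0 := by
    have l1 : Tendsto (fun R : ℝ => (1 - ‖x‖ / R) * ‖χ s x‖ ^ 2) atTop
        (𝓝 ((1 - 0) * ‖χ s x‖ ^ 2)) :=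
      (tendsto_const_nhds.sub (tendsto_const_nhds.div_atTop tendsto_id)).mul_const _
    have l2 : Tendsto (fun R : ℝ => 2 * ((d : ℝ) / R) * |s|) atTop (𝓝 (2 * 0 * |s|)) :=
      ((tendsto_const_nhds.div_atTop tendsto_id).const_mul 2).mul_const _
    rw [sub_zero, one_mul] at l1
    rw [mul_zero, zero_mul] at l2
    refine le_of_tendsto_of_tendsto l1 l2 ?_
    filter_upwards [eventually_ge_atTop (‖x‖ + 1)] with R hR
    exact hkey R hR
  have hz' : ‖χ s x‖ = 0 := by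
    have := sq_nonneg ‖χ s x‖
    exact pow_eq_zero_iff (n := 2) (by norm_num) |>.1 (le_antisymm hz this)
  rw [norm_eq_zero, hχx] at hz'
  have h5 : ψ s x - φ s x = 0 := by
    rcases mul_eq_zero.1 hz' with h | h
    · norm_num at h
    · exact h
  exact sub_eq_zero.1 h5

/-- truncated potentials -/
theorem sol_cut (V : Zd d → ℝ) (a : Zd d) (n : ℕ) :
    ∃ ψ : ℝ → Zd d → ℂ, Sol d (fun x => if ‖x‖ ≤ n then V x else 0) a ψ := by
  obtain ⟨B, hB⟩ : ∃ B : ℝ, B = ∑ x ∈ LO.bx (0 : Zd d) ⌊(n : ℝ)⌋₊, |V x| := ⟨_, rfl⟩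
  have hB0 : 0 ≤ B := by
    rw [hB]
    exact Finset.sum_nonneg fun x _ => abs_nonneg _
  refine Pool.Agent.TH794.QD.exists_sol _ B (fun x => ?_) a
  by_cases hx : ‖x‖ ≤ n
  · rw [if_pos hx, hB]
    exact Finset.single_le_sum (f := fun x => |V x|) (fun y _ => abs_nonneg _)
      (Gen3.norm_zd x n hx)
  · rw [if_neg hx]
    simpa using hB0

/-- the second order Taylor bound -/
theorem taylor2 (f f' : ℝ → ℂ) (L : ℝ) (hL : 0 ≤ L) (hf : ∀ s, HasDerivAt f (f' s) s)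
    (hf' : ∀ s r, ‖f' s - f' r‖ ≤ L * |s - r|) (s r : ℝ) :
    ‖f r - f s - ((r - s : ℝ) : ℂ) * f' s‖ ≤ L * |r - s| ^ 2 := by
  have hg : ∀ τ ∈ uIcc s r, HasDerivWithinAt (fun τ => f τ - (τ : ℂ) * f' s) (f' τ - f' s)
      (uIcc s r) τ := by
    intro τ _
    have h1 : HasDerivAt (fun τ : ℝ => (τ : ℂ) * f' s) (f' s) τ := by
      have h2 := (Complex.ofRealCLM.hasDerivAt (x := τ)).mul_const (f' s)
      simpa using h2
    exact ((hf τ).sub h1).hasDerivWithinAt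
  have hb : ∀ τ ∈ uIcc s r, ‖f' τ - f' s‖ ≤ L * |r - s| := by
    intro τ hτ
    refine (hf' τ s).trans (mul_le_mul_of_nonneg_left ?_ hL)
    have := abs_sub_left_of_mem_uIcc hτ
    exact this
  have h3 := Convex.norm_image_sub_le_of_norm_hasDerivWithin_le hg hb (convex_uIcc s r)
    left_mem_uIcc right_mem_uIcc
  rw [Real.norm_eq_abs] at h3
  have e1 : f r - f s - ((r - s : ℝ) : ℂ) * f' s =
      f r - (r : ℂ) * f' s - (f s - (s : ℂ) * f' s) := by
    push_cast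
    ring
  rw [e1]
  refine h3.trans (le_of_eq ?_)
  ring

/-- **existence of the evolution for every real potential** -/
theorem exists_solU (V : Zd d → ℝ) (a : Zd d) : ∃ ψ : ℝ → Zd d → ℂ, Sol d V a ψ := by
  choose Ψ hΨ using sol_cut V a
  obtain ⟨Vn, hVn⟩ : ∃ Vn : ℕ → Zd d → ℝ, Vn = fun (n : ℕ) (x : Zd d) => if ‖x‖ ≤ (n : ℝ) then V x else 0 :=
    ⟨_, rfl⟩
  have hVnx : ∀ n x, Vn n x = if ‖x‖ ≤ (n : ℝ) then V x else 0 := fun n x => by rw [hVn]
  have hVb : ∀ n x, |Vn n x| ≤ |V x| := by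
    intro n x
    rw [hVnx]
    split_ifs
    · exact le_refl _
    · simp
  -- the right hand side
  obtain ⟨Fn, hFn⟩ : ∃ Fn : ℕ → ℝ → Zd d → ℂ, Fn = fun n s x =>
    -Complex.I * (-S (Ψ n s) x + (Vn n x : ℂ) * Ψ n s x) := ⟨_, rfl⟩
  have hFnx : ∀ n s x, Fn n s x = -Complex.I * (-S (Ψ n s) x + (Vn n x : ℂ) * Ψ n s x) :=
    fun n s x => by rw [hFn]
  have hode : ∀ n s x, HasDerivAt (fun s => Ψ n s x) (Fn n s x) s := by
    intro n s x
    rw [hFnx, hVnx]
    exact (hΨ n).ode s x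
  have hone : ∀ n s x, ‖Ψ n s x‖ ≤ 1 := fun n s x => (hΨ n).le_one s x
  obtain ⟨M, hM⟩ : ∃ M : Zd d → ℝ, M = fun x => 2 * d + |V x| := ⟨_, rfl⟩
  have hMx : ∀ x, M x = 2 * d + |V x| := fun x => by rw [hM]
  have hM0 : ∀ x, 0 ≤ M x := fun x => by
    rw [hMx]
    positivity
  have hFb : ∀ n s x, ‖Fn n s x‖ ≤ M x := by
    intro n s x
    rw [hFnx, norm_mul, norm_neg, Complex.norm_I, one_mul, hMx]
    refine (norm_add_le _ _).trans (add_le_add ?_ ?_)
    · rw [norm_neg]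
      unfold S
      refine (norm_sum_le _ _).trans ?_
      have h1 : ∀ i ∈ (Finset.univ : Finset (Fin d)),
          ‖Ψ n s (x + Pi.single i 1) + Ψ n s (x - Pi.single i 1)‖ ≤ 2 := by
        intro i _
        refine (norm_add_le _ _).trans ?_
        have := hone n s (x + Pi.single i 1)
        have := hone n s (x - Pi.single i 1)
        linarith
      refine (Finset.sum_le_sum h1).trans ?_
      rw [Finset.sum_const, Finset.card_univ, Fintype.card_fin, nsmul_eq_mul]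
      linarith
    · rw [norm_mul, Complex.norm_real, Real.norm_eq_abs]
      calc |Vn n x| * ‖Ψ n s x‖ ≤ |V x| * 1 :=
            mul_le_mul (hVb n x) (hone n s x) (norm_nonneg _) (abs_nonneg _)
        _ = _ := mul_one _
  have hlip : ∀ n s r x, ‖Ψ n s x - Ψ n r x‖ ≤ M x * |s - r| := by
    intro n s r x
    have h1 := Convex.norm_image_sub_le_of_norm_hasDerivWithin_le (s := univ)
      (fun τ _ => (hode n τ x).hasDerivWithinAt) (fun τ _ => hFb n τ x) convex_univ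
      (mem_univ r) (mem_univ s)
    rw [Real.norm_eq_abs] at h1
    exact h1
  obtain ⟨Lx, hLx⟩ : ∃ Lx : Zd d → ℝ, Lx = fun x =>
    (∑ i : Fin d, (M (x + Pi.single i 1) + M (x - Pi.single i 1))) + |V x| * M x := ⟨_, rfl⟩
  have hLxx : ∀ x, Lx x = (∑ i : Fin d, (M (x + Pi.single i 1) + M (x - Pi.single i 1))) +
      |V x| * M x := fun x => by rw [hLx]
  have hLx0 : ∀ x, 0 ≤ Lx x := fun x => by
    rw [hLxx]
    refine add_nonneg (Finset.sum_nonneg fun i _ => add_nonneg (hM0 _) (hM0 _))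
      (mul_nonneg (abs_nonneg _) (hM0 x))
  have hFl : ∀ n x s r, ‖Fn n s x - Fn n r x‖ ≤ Lx x * |s - r| := by
    intro n x s r
    have e1 : Fn n s x - Fn n r x = -Complex.I * (-(∑ i : Fin d,
        ((Ψ n s (x + Pi.single i 1) - Ψ n r (x + Pi.single i 1)) +
          (Ψ n s (x - Pi.single i 1) - Ψ n r (x - Pi.single i 1)))) +
        (Vn n x : ℂ) * (Ψ n s x - Ψ n r x)) := by
      rw [hFnx, hFnx]
      unfold S
      have e2 : ∑ i : Fin d, ((Ψ n s (x + Pi.single i 1) - Ψ n r (x + Pi.single i 1)) +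
          (Ψ n s (x - Pi.single i 1) - Ψ n r (x - Pi.single i 1))) =
          ∑ i : Fin d, (Ψ n s (x + Pi.single i 1) + Ψ n s (x - Pi.single i 1)) -
          ∑ i : Fin d, (Ψ n r (x + Pi.single i 1) + Ψ n r (x - Pi.single i 1)) := by
        rw [← Finset.sum_sub_distrib]
        exact Finset.sum_congr rfl fun i _ => by ring
      rw [e2]
      ring
    rw [e1, norm_mul, norm_neg, Complex.norm_I, one_mul, hLxx, add_mul]
    refine (norm_add_le _ _).trans (add_le_add ?_ ?_)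
    · rw [norm_neg, Finset.sum_mul]
      refine (norm_sum_le _ _).trans (Finset.sum_le_sum fun i _ => ?_)
      rw [add_mul]
      exact (norm_add_le _ _).trans (add_le_add (hlip n s r _) (hlip n s r _))
    · rw [norm_mul, Complex.norm_real, Real.norm_eq_abs, mul_assoc]
      exact mul_le_mul (hVb n x) (hlip n s r x) (norm_nonneg _) (abs_nonneg _)
  -- the limit
  obtain ⟨U, hU⟩ : ∃ U : Ultrafilter ℕ, U = hyperfilter ℕ := ⟨_, rfl⟩
  have hUl : (U : Filter ℕ) ≤ atTop := by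
    rw [hU]
    exact Nat.hyperfilter_le_atTop
  have hlim : ∀ s x, ∃ l, Tendsto (fun n => Ψ n s x) (U : Filter ℕ) (𝓝 l) := by
    intro s x
    obtain ⟨l, -, hl⟩ := (isCompact_closedBall (0 : ℂ) 1).ultrafilter_le_nhds
      (Ultrafilter.map (fun n => Ψ n s x) U) (by
        rw [Filter.le_principal_iff, Ultrafilter.mem_coe, Ultrafilter.mem_map]
        refine Filter.univ_mem' fun n => ?_
        simpa using hone n s x)
    exact ⟨l, hl⟩
  choose ψ hψ using hlim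
  have hev : ∀ x, ∀ᶠ n : ℕ in (U : Filter ℕ), Vn n x = V x := by
    intro x
    refine hUl ?_
    obtain ⟨N, hN⟩ := exists_nat_ge ‖x‖
    filter_upwards [eventually_ge_atTop N] with n hn
    rw [hVnx, if_pos]
    exact hN.trans (by exact_mod_cast hn)
  have hVlim : ∀ x, Tendsto (fun n => ((Vn n x : ℝ) : ℂ)) (U : Filter ℕ) (𝓝 ((V x : ℝ) : ℂ)) := by
    intro x
    refine tendsto_const_nhds.congr' ?_
    filter_upwards [hev x] with n hn
    rw [hn]
  have hFlim : ∀ s x, Tendsto (fun n => Fn n s x) (U : Filter ℕ)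
      (𝓝 (-Complex.I * (-S (ψ s) x + (V x : ℂ) * ψ s x))) := by
    intro s x
    simp only [hFnx]
    refine Tendsto.const_mul _ (Tendsto.add (Tendsto.neg ?_) ((hVlim x).mul (hψ s x)))
    unfold S
    exact tendsto_finsetSum _ fun i _ => (hψ s _).add (hψ s _)
  have hinit : ∀ x, ψ 0 x = if x = a then 1 else 0 := by
    intro x
    refine tendsto_nhds_unique (hψ 0 x) (tendsto_const_nhds.congr fun n => ?_)
    exact ((hΨ n).init x).symm
  have hder : ∀ s x, HasDerivAt (fun s => ψ s x) (-Complex.I * (-S (ψ s) x + (V x : ℂ) * ψ s x))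
      s := by
    intro s x
    rw [hasDerivAt_iff_isLittleO]
    have hO : (fun r => ψ r x - ψ s x - (r - s) • (-Complex.I * (-S (ψ s) x +
        (V x : ℂ) * ψ s x))) =O[𝓝 s] fun r => ‖r - s‖ ^ 2 := by
      refine Asymptotics.IsBigO.of_bound (Lx x) (Eventually.of_forall fun r => ?_)
      rw [Real.norm_of_nonneg (sq_nonneg _), Real.norm_eq_abs]
      have h1 : ∀ n, ‖Ψ n r x - Ψ n s x - ((r - s : ℝ) : ℂ) * Fn n s x‖ ≤ Lx x * |r - s| ^ 2 :=
        fun n => taylor2 (fun s => Ψ n s x) (fun s => Fn n s x) (Lx x) (hLx0 x)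
          (fun s => hode n s x) (fun s r => hFl n x s r) s r
      have h2 : Tendsto (fun n => ‖Ψ n r x - Ψ n s x - ((r - s : ℝ) : ℂ) * Fn n s x‖)
          (U : Filter ℕ) (𝓝 ‖ψ r x - ψ s x - ((r - s : ℝ) : ℂ) *
            (-Complex.I * (-S (ψ s) x + (V x : ℂ) * ψ s x))‖) :=
        (((hψ r x).sub (hψ s x)).sub ((hFlim s x).const_mul _)).norm
      exact le_of_tendsto' h2 h1
    exact hO.trans_isLittleO (Asymptotics.isLittleO_pow_sub_sub s one_lt_two)
  have hsum : ∀ s (F : Finset (Zd d)), ∑ x ∈ F, ‖ψ s x‖ ^ 2 ≤ 1 := by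
    intro s F
    refine le_of_tendsto' (tendsto_finsetSum F fun x _ => ((hψ s x).norm).pow 2) fun n => ?_
    have h1 := ((hΨ n).norm s).summable.sum_le_tsum F fun x _ => sq_nonneg _
    rw [((hΨ n).norm s).tsum_eq] at h1
    exact h1
  exact ⟨ψ, hinit, hder, norm_cons V a ψ hinit hder hsum⟩

end Pool.Agent.V11324.GD
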