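import Pool.Agent.V11324.GD.Net
import Pool.Agent.V11324.GL.Gauss

/-! The characteristic function of the resolvent for Gaussian disorder. -/

set_option autoImplicit false
set_option linter.unusedSectionVars false

open scoped BigOperators Topology
open MeasureTheory ProbabilityTheory Filter Set

namespace Pool.Agent.V11324.GD

open Pool.Agent.W788.BK
open Pool.Agent.H4R2
open Pool.Agent.H4R2.LO (Zd)
open Pool.Agent.W788.BK.Num
open Pool.Agent.TH794.LL2 (hexle)
open Pool.Agent.TH794.QD
open Pool.Agent.TH794.QE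
open Pool.Agent.TH794.HK
open Pool.Agent.V11324.GL

variable {d : ℕ}

/-- translations preserve the law -/
theorem inf_shift (μ : Measure ℝ) [IsProbabilityMeasure μ] (a : Zd d) :
    (Measure.infinitePi fun _ : Zd d => μ).map (fun ω x => ω (x + a)) =
      Measure.infinitePi fun _ : Zd d => μ := by
  have h := Measure.infinitePi_map_piCongrLeft (fun _ : Zd d => μ) (Equiv.addRight a).symm
  have e : ⇑(MeasurableEquiv.piCongrLeft (fun _ : Zd d => ℝ) (Equiv.addRight a).symm) =
      fun ω x => ω (x + a) := by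
    funext ω x
    have h1 := MeasurableEquiv.piCongrLeft_apply_apply (Equiv.addRight a).symm
      (β := fun _ : Zd d => ℝ) ω ((Equiv.addRight a) x)
    rw [Equiv.symm_apply_apply] at h1
    exact h1
  rw [e] at h
  exact h

/-- the pointwise bound for the variance -/
theorem cl_sq (B v : ℝ) (hB : 0 < B) :
    v ^ 2 - (B * cl B v) ^ 2 ≤ 2 * Real.exp (-B) * (Real.exp (2 * v) + Real.exp (-2 * v)) ∧
      (B * cl B v) ^ 2 ≤ v ^ 2 := by
  have hp : 0 ≤ 2 * Real.exp (-B) * (Real.exp (2 * v) + Real.exp (-2 * v)) := by positivity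
  rcases le_or_gt |v| B with h | h
  · rw [cl_eq hB h]
    have e1 : B * (v / B) = v := by field_simp
    rw [e1]
    exact ⟨by linarith, le_refl _⟩
  · constructor
    · have h1 : v ^ 2 ≤ 2 * Real.exp |v| := by
        have := Real.quadratic_le_exp_of_nonneg (abs_nonneg v)
        have h2 := abs_nonneg v
        rw [sq_abs] at this
        linarith
      have h2 : Real.exp |v| ≤ Real.exp (-B) * (Real.exp (2 * v) + Real.exp (-2 * v)) := by
        have h3 : Real.exp |v| ≤ Real.exp (-B) * Real.exp (2 * |v|) := by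
          rw [← Real.exp_add]
          apply Real.exp_le_exp.2
          linarith
        refine h3.trans (mul_le_mul_of_nonneg_left ?_ (Real.exp_pos _).le)
        have p1 := Real.exp_pos (2 * v)
        have p2 := Real.exp_pos (-2 * v)
        rcases abs_cases v with ⟨h4, -⟩ | ⟨h4, -⟩ <;> rw [h4]
        · linarith
        · have : 2 * -v = -2 * v := by ring
          rw [this]
          linarith
      nlinarith [sq_nonneg (B * cl B v)]
    · rw [mul_pow, ← sq_abs v]
      have h1 : cl B v ^ 2 ≤ 1 := by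
        rw [← sq_abs]
        exact pow_le_one₀ (abs_nonneg _) (cl_abs B v)
      have h2 : B ^ 2 ≤ |v| ^ 2 := pow_le_pow_left₀ hB.le h.le 2
      nlinarith [sq_nonneg B]

theorem g_sq_int : Integrable (fun v : ℝ => v ^ 2) (gaussianReal 0 1) := by
  have h := memLp_id_gaussianReal (μ := 0) (v := 1) 2
  exact h.integrable_sq

theorem g_sq : ∫ v, v ^ 2 ∂(gaussianReal 0 1) = 1 := by
  have h := variance_id_gaussianReal (μ := 0) (v := 1)
  rw [variance_eq_integral (by fun_prop)] at h
  simp only [id_eq, integral_id_gaussianReal, sub_zero] at h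
  rw [h]
  simp

theorem cl_sq_int (B : ℝ) (hB : 0 < B) :
    Integrable (fun v : ℝ => (B * cl B v) ^ 2) (gaussianReal 0 1) := by
  refine Integrable.mono' (integrable_const (B ^ 2))
    (((cl_meas B).const_mul B).pow_const 2).aestronglyMeasurable
    (Eventually.of_forall fun v => ?_)
  rw [Real.norm_of_nonneg (sq_nonneg _), mul_pow]
  have h1 : cl B v ^ 2 ≤ 1 := by
    rw [← sq_abs]
    exact pow_le_one₀ (abs_nonneg _) (cl_abs B v)
  nlinarith [sq_nonneg B]

/-- the variance of the clipped variable -/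
theorem var_cl (B : ℝ) (hB : 0 < B) :
    1 - 4 * Real.exp 2 * Real.exp (-B) ≤ B ^ 2 * ∫ s, s ^ 2 ∂(nu B) ∧
      B ^ 2 * ∫ s, s ^ 2 ∂(nu B) ≤ 1 := by
  have e1 : B ^ 2 * ∫ s, s ^ 2 ∂(nu B) = ∫ v, (B * cl B v) ^ 2 ∂(gaussianReal 0 1) := by
    unfold nu
    rw [integral_map (cl_meas B).aemeasurable (by fun_prop), ← integral_const_mul]
    refine integral_congr_ae (Eventually.of_forall fun v => ?_)
    simp only [mul_pow]
  rw [e1]
  have i1 := cl_sq_int B hB
  constructor
  · have hexp : ∀ t : ℝ, Integrable (fun v : ℝ => Real.exp (t * v)) (gaussianReal 0 1) :=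
      fun t => integrable_exp_mul_gaussianReal t
    have hmg : ∀ t : ℝ, ∫ v, Real.exp (t * v) ∂(gaussianReal 0 1) = Real.exp (t ^ 2 / 2) :=
      fun t => mgf_one t
    have i2 : Integrable (fun v : ℝ => 2 * Real.exp (-B) * (Real.exp (2 * v) + Real.exp (-2 * v)))
        (gaussianReal 0 1) := ((hexp 2).add (hexp (-2))).const_mul _
    have h1 : ∫ v, (v ^ 2 - (B * cl B v) ^ 2) ∂(gaussianReal 0 1) ≤
        ∫ v, 2 * Real.exp (-B) * (Real.exp (2 * v) + Real.exp (-2 * v)) ∂(gaussianReal 0 1) :=
      integral_mono (g_sq_int.sub i1) i2 fun v => (cl_sq B v hB).1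
    rw [integral_sub g_sq_int i1, g_sq, integral_const_mul, integral_add (hexp 2) (hexp (-2)),
      hmg, hmg] at h1
    have e2 : Real.exp (2 ^ 2 / 2) = Real.exp 2 := by norm_num
    have e3 : Real.exp ((-2) ^ 2 / 2) = Real.exp 2 := by norm_num
    rw [e2, e3] at h1
    linarith
  · have h1 : ∫ v, (B * cl B v) ^ 2 ∂(gaussianReal 0 1) ≤ ∫ v, v ^ 2 ∂(gaussianReal 0 1) :=
      integral_mono i1 g_sq_int fun v => (cl_sq B v hB).2
    rw [g_sq] at h1
    exact h1

end Pool.Agent.V11324.GD
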