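import Pool.Agent.V11324.GD.Gs

/-! The characteristic function of the resolvent for Gaussian disorder, all sites. -/

set_option autoImplicit false
set_option linter.unusedSectionVars false

open scoped BigOperators Topology
open MeasureTheory ProbabilityTheory Filter Set

namespace Pool.Agent.V11324.GD

open Pool.Agent.W788.BK
open Pool.Agent.H4R2
open Pool.Agent.H4R2.LO (Zd)
open Pool.Agent.W788.BK.Num
open Pool.Agent.TH794.LL2 (hexle)
open Pool.Agent.TH794.QD
open Pool.Agent.TH794.QE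
open Pool.Agent.TH794.HK
open Pool.Agent.V11324.GL

variable {d : ℕ}

/-- the probabilities -/
theorem numP (d : ℕ) : ∀ᶠ y : ℝ in atTop,
    (3 * Real.exp (Real.exp (5 / 2997 * y))) ^ d * Real.exp (-Real.exp (1 / 101 * y)) +
      (3 * (Real.exp (Real.exp (5 / 2997 * y)) + (1 + Real.exp (7 * y)))) ^ d *
        (2 * Real.exp (-(Real.exp (1 / 999 * y) ^ 2 / 2))) ≤
      Real.exp (-Real.exp (5 / 2997 * y)) := by
  filter_upwards [ev1 7 (5 / 2997) 1 (by norm_num),
    ev3 (2 * (d * (Real.log 12 + 1) + 4)) (5 / 2997) (2 / 999) (by norm_num),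
    ev3 1 (2 / 999) (1 / 101) (by norm_num), eventually_ge_atTop 1] with y h1 h2 h3 hy1
  obtain ⟨Y, hY⟩ : ∃ Y, Y = Real.exp (5 / 2997 * y) := ⟨_, rfl⟩
  obtain ⟨Z, hZ⟩ : ∃ Z, Z = Real.exp (2 / 999 * y) := ⟨_, rfl⟩
  rw [pow_one] at h1
  rw [one_mul] at h3
  have e1 : Real.exp (1 / 999 * y) ^ 2 = Z := by
    rw [hZ, ← Real.exp_nat_mul]
    congr 1
    push_cast
    ring
  rw [e1]
  rw [← hY] at h1 h2 ⊢
  rw [← hZ] at h2 h3
  have hY1 : 1 ≤ Y := by
    rw [hY]
    exact Real.one_le_exp (by linarith)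
  have hZ0 : 0 < Z := by rw [hZ]; positivity
  have hlog12 : 0 ≤ Real.log 12 := Real.log_nonneg (by norm_num)
  have hl2 : Real.log 2 ≤ 1 := by
    have := Real.log_two_lt_d9
    linarith
  have hd0 : (0 : ℝ) ≤ d := Nat.cast_nonneg d
  have a1 : 3 * (Real.exp Y + (1 + Real.exp (7 * y))) ≤ 12 * Real.exp Y := by
    have u1 : Real.exp (7 * y) ≤ Real.exp Y := Real.exp_le_exp.2 h1
    have u2 : 1 ≤ Real.exp Y := Real.one_le_exp (by linarith)
    linarith
  have h6 : Real.exp (d * (Real.log 12 + Y)) = (12 * Real.exp Y) ^ d := by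
    rw [Real.exp_nat_mul, Real.exp_add, Real.exp_log (by norm_num)]
  have a2 : (3 * (Real.exp Y + (1 + Real.exp (7 * y)))) ^ d ≤ Real.exp (d * (Real.log 12 + Y)) := by
    rw [h6]
    exact pow_le_pow_left₀ (by positivity) a1 d
  have a2' : (3 * Real.exp Y) ^ d ≤ Real.exp (d * (Real.log 12 + Y)) := by
    rw [h6]
    have := Real.exp_pos Y
    exact pow_le_pow_left₀ (by positivity) (by linarith) d
  have a3 : d * (Real.log 12 + Y) + Real.log 2 + Y + 1 ≤ Z / 2 := by
    have b1 : d * Real.log 12 ≤ d * Real.log 12 * Y := le_mul_of_one_le_right (by positivity) hY1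
    nlinarith
  have a4 : Real.exp (d * (Real.log 12 + Y)) * (2 * Real.exp (-(Z / 2))) ≤
      Real.exp (-Y - 1) := by
    calc Real.exp (d * (Real.log 12 + Y)) * (2 * Real.exp (-(Z / 2))) =
        Real.exp (d * (Real.log 12 + Y)) * (Real.exp (Real.log 2) * Real.exp (-(Z / 2))) := by
          rw [Real.exp_log (by norm_num)]
      _ = Real.exp (d * (Real.log 12 + Y) + (Real.log 2 + -(Z / 2))) := by
          rw [← Real.exp_add, ← Real.exp_add]
      _ ≤ Real.exp (-Y - 1) := by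
          apply Real.exp_le_exp.2
          linarith
  have a5 : Real.exp (-Real.exp (1 / 101 * y)) ≤ 2 * Real.exp (-(Z / 2)) := by
    have u1 : Real.exp (-Real.exp (1 / 101 * y)) ≤ Real.exp (-(Z / 2)) :=
      Real.exp_le_exp.2 (by linarith)
    have u2 := Real.exp_pos (-(Z / 2))
    linarith
  have t1 : (3 * Real.exp Y) ^ d * Real.exp (-Real.exp (1 / 101 * y)) ≤ Real.exp (-Y - 1) :=
    (mul_le_mul a2' a5 (Real.exp_pos _).le (Real.exp_pos _).le).trans a4
  have t2 : (3 * (Real.exp Y + (1 + Real.exp (7 * y)))) ^ d * (2 * Real.exp (-(Z / 2))) ≤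
      Real.exp (-Y - 1) :=
    (mul_le_mul_of_nonneg_right a2 (by positivity)).trans a4
  have t3 : Real.exp (-Y - 1) + Real.exp (-Y - 1) ≤ Real.exp (-Y) := by
    have e2 : Real.exp (-Y) = Real.exp (-Y - 1) * Real.exp 1 := by
      rw [← Real.exp_add]
      congr 1
      ring
    have u1 := Real.exp_one_gt_d9
    have u2 := Real.exp_pos (-Y - 1)
    rw [e2]
    nlinarith
  linarith

/-- **all sites** -/
theorem gaussK (hES : S_ES) (hTH : S_THIRD) (hFL : S_FLUCT) (hIN : S_INV)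
    (hSU : S_SUP) (hQB : S_QB) (hLO : S_LOW) (hAD : S_ADM) (hFA : S_FAC) (hO : S_OSC)
    (d : ℕ) (hd : 3 ≤ d) (κ : ℝ) (hκ : 0 < κ) (hκ1 : κ ≤ 1) (K : ℝ) (hK : 0 ≤ K) :
    ∃ y0 : ℝ, ∀ y : ℝ, y0 ≤ y → ∃ W : ℝ, 1 / 2 ≤ W ∧ W ≤ 1 ∧
      1 - W ≤ 4 * Real.exp 2 * Real.exp (-Real.exp (1 / 999 * y)) ∧
      ∃ G : Set (Zd d → ℝ), MeasurableSet G ∧
        1 - Real.exp (-Real.exp (5 / 2997 * y)) ≤
          (Measure.infinitePi fun _ : Zd d => gaussianReal 0 1).real G ∧
        ∀ ξ ∈ G, ∀ a : Zd d, ‖a‖ ≤ Real.exp (Real.exp (5 / 2997 * y)) →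
          SLaw d κ K (Real.exp (-(81 / 40) * y)) (Real.exp (-(4025 / 1998) * y))
            (Real.exp (-(2000 / 999) * y) * W) (Real.exp (-(1 / 200) * y))
            (Real.exp (-(1000 / 999) * y)) (fun x => ξ (x + a)) := by
  obtain ⟨y0, h0⟩ := net hES hTH hFL hIN hSU hQB hLO hAD hFA hO d hd κ hκ hκ1 K hK
  obtain ⟨y1, hy1⟩ := eventually_atTop.1 ((numP d).and ((eventually_ge_atTop (1 : ℝ)).and
    ((ev1 (Real.log (8 * Real.exp 2)) (1 / 999) 0 (by norm_num)).and
    (ev3 2 (-(1 / 80000)) 0 (by norm_num)))))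
  refine ⟨max y0 y1, fun y hy => ?_⟩
  obtain ⟨hn, hyone, m1, m2⟩ := hy1 y (le_trans (le_max_right _ _) hy)
  rw [pow_zero, mul_one] at m1
  rw [zero_mul, Real.exp_zero] at m2
  obtain ⟨B, hB⟩ : ∃ B, B = Real.exp (1 / 999 * y) := ⟨_, rfl⟩
  have hB0 : 0 < B := by rw [hB]; positivity
  obtain ⟨W, hW⟩ : ∃ W, W = B ^ 2 * ∫ s, s ^ 2 ∂(nu B) := ⟨_, rfl⟩
  obtain ⟨v1, v2⟩ := var_cl B hB0
  rw [← hW] at v1 v2
  rw [← hB] at m1 hn ⊢
  have hW2 : 1 / 2 ≤ W := by
    have h1 : 4 * Real.exp 2 * Real.exp (-B) ≤ 1 / 2 := by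
      have h2 : 8 * Real.exp 2 ≤ Real.exp B := by
        calc 8 * Real.exp 2 = Real.exp (Real.log (8 * Real.exp 2)) :=
              (Real.exp_log (by positivity)).symm
          _ ≤ Real.exp B := Real.exp_le_exp.2 m1
      rw [Real.exp_neg]
      have h3 := Real.exp_pos B
      rw [← div_eq_mul_inv, div_le_iff₀ h3]
      linarith
    linarith
  refine ⟨W, hW2, v2, by linarith, ?_⟩
  have hWB : Real.exp (-2 * y) * ∫ s, s ^ 2 ∂(nu B) = Real.exp (-(2000 / 999) * y) * W := by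
    rw [hW, ← mul_assoc]
    congr 1
    rw [hB, ← Real.exp_nat_mul, ← Real.exp_add]
    congr 1
    push_cast
    ring
  have hVv0 : 0 < ∫ s, s ^ 2 ∂(nu B) := by
    have h1 : 0 < B ^ 2 * ∫ s, s ^ 2 ∂(nu B) := by
      rw [← hW]
      linarith
    exact (pos_iff_pos_of_mul_pos h1).1 (by positivity)
  obtain ⟨G, hG, hP, hcyl, hLL⟩ := h0 y (le_trans (le_max_left _ _) hy) (nu B)
    (nu_prob B) (nu_bd B) (nu_mean B) _ rfl hVv0 (Real.exp (-(4025 / 1998) * y))
    (hexle hyone _ _ (by norm_num)) (hexle hyone _ _ (by norm_num)) (by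
      rw [hWB]
      have h1 : Real.exp (-(1 / 80) * y) * (Real.exp (-(2000 / 999) * y) * W) =
          Real.exp (-(1 / 80) * y + -(2000 / 999) * y) * W := by
        rw [Real.exp_add]
        ring
      rw [h1]
      have h2 : Real.exp (-(4025 / 1998) * y) ≤
          Real.exp (-(1 / 80000) * y) * Real.exp (-(1 / 80) * y + -(2000 / 999) * y) := by
        rw [← Real.exp_add]
        apply Real.exp_le_exp.2
        linarith
      have h3 := Real.exp_pos (-(1 / 80) * y + -(2000 / 999) * y)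
      have h4 : Real.exp (-(1 / 80000) * y) ≤ W := by linarith
      calc Real.exp (-(4025 / 1998) * y) ≤ _ := h2
        _ ≤ W * Real.exp (-(1 / 80) * y + -(2000 / 999) * y) := by gcongr
        _ = _ := by ring)
  rw [hWB] at hLL
  obtain ⟨R, hR⟩ : ∃ R, R = Real.exp (Real.exp (5 / 2997 * y)) := ⟨_, rfl⟩
  obtain ⟨ρ, hρ⟩ : ∃ ρ, ρ = R + (1 + Real.exp (7 * y)) := ⟨_, rfl⟩
  have hR1 : 1 ≤ R := by
    rw [hR]
    exact Real.one_le_exp (Real.exp_pos _).le
  have hρ1 : 1 ≤ ρ := by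
    have h2 := Real.exp_pos (7 * y)
    linarith
  rw [← hR, ← hρ] at hn
  rw [← hR]
  -- the event
  obtain ⟨A, hA⟩ : ∃ A : Set (Zd d → ℝ), A = ⋂ x ∈ LO.bx (0 : Zd d) ⌊ρ⌋₊,
    {ξ : Zd d → ℝ | |ξ x| ≤ B} := ⟨_, rfl⟩
  have hAm : MeasurableSet A := by
    rw [hA]
    exact Finset.measurableSet_biInter _ fun x _ => measurableSet_le (by fun_prop) (by fun_prop)
  have hPA : (Measure.infinitePi fun _ : Zd d => gaussianReal 0 1).real Aᶜ ≤
      (3 * ρ) ^ d * (2 * Real.exp (-(B ^ 2 / 2))) := by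
    have e1 : Aᶜ = ⋃ x ∈ LO.bx (0 : Zd d) ⌊ρ⌋₊, {ξ : Zd d → ℝ | B < |ξ x|} := by
      rw [hA]
      ext ξ
      simp
    rw [e1]
    have h1 : ∀ x ∈ LO.bx (0 : Zd d) ⌊ρ⌋₊,
        (Measure.infinitePi fun _ : Zd d => gaussianReal 0 1).real {ξ : Zd d → ℝ | B < |ξ x|} ≤
          2 * Real.exp (-(B ^ 2 / 2)) := by
      intro x _
      have h2 : (Measure.infinitePi fun _ : Zd d => gaussianReal 0 1).map (fun ξ => ξ x) =
          gaussianReal 0 1 := Measure.infinitePi_map_eval _ x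
      have hm : MeasurableSet {v : ℝ | B < |v|} := measurableSet_lt (by fun_prop) (by fun_prop)
      have h3 := tail B hB0.le
      rw [← h2, map_measureReal_apply (measurable_pi_apply x) hm] at h3
      exact h3
    refine (measureReal_biUnion_finset_le _ _).trans ((Finset.sum_le_sum h1).trans ?_)
    rw [Finset.sum_const, nsmul_eq_mul, LO.Em.card_bx]
    apply mul_le_mul_of_nonneg_right _ (by positivity)
    push_cast
    apply pow_le_pow_left₀ (by positivity)
    have := Nat.floor_le (show 0 ≤ ρ by linarith)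
    linarith
  -- the map
  obtain ⟨Tm, hTmdef⟩ : ∃ Tm : Zd d → (Zd d → ℝ) → (Zd d → ℝ),
    Tm = fun a ξ x => cl B (ξ (x + a)) := ⟨_, rfl⟩
  have hTx : ∀ a ξ, Tm a ξ = fun x => cl B (ξ (x + a)) := fun a ξ => by rw [hTmdef]
  have hTm : ∀ a, Measurable (Tm a) := fun a => by
    rw [hTmdef]
    exact measurable_pi_iff.2 fun x => (cl_meas B).comp (measurable_pi_apply _)
  have hTm0 : Measurable (fun (ω : Zd d → ℝ) x => cl B (ω x)) :=
    measurable_pi_iff.2 fun x => (cl_meas B).comp (measurable_pi_apply x)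
  have hlaw0 : (Measure.infinitePi fun _ : Zd d => gaussianReal 0 1).map
      (fun (ω : Zd d → ℝ) x => cl B (ω x)) = Measure.infinitePi fun _ : Zd d => nu B :=
    Measure.infinitePi_map_pi (μ := fun _ : Zd d => gaussianReal 0 1)
      (f := fun _ (s : ℝ) => cl B s) (fun _ => cl_meas B)
  have hlaw : ∀ a, (Measure.infinitePi fun _ : Zd d => gaussianReal 0 1).map (Tm a) =
      Measure.infinitePi fun _ : Zd d => nu B := by
    intro a
    have h1 := inf_shift (d := d) (gaussianReal 0 1) a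
    have hms : Measurable (fun (ω : Zd d → ℝ) (x : Zd d) => ω (x + a)) :=
      measurable_pi_iff.2 fun x => measurable_pi_apply _
    rw [← hlaw0, ← h1, Measure.map_map hTm0 hms, h1]
    congr 1
    rw [hTmdef]
    rfl
  have hPG : ∀ a, (Measure.infinitePi fun _ : Zd d => gaussianReal 0 1).real ((Tm a) ⁻¹' G)ᶜ ≤
      Real.exp (-Real.exp (1 / 101 * y)) := by
    intro a
    have h1 := probReal_add_probReal_compl
      (μ := Measure.infinitePi fun _ : Zd d => gaussianReal 0 1) (hTm a hG)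
    rw [← hlaw a, map_measureReal_apply (hTm a) hG] at hP
    linarith
  obtain ⟨G1, hG1⟩ : ∃ G1 : Set (Zd d → ℝ), G1 = ⋂ a ∈ LO.bx (0 : Zd d) ⌊R⌋₊,
    (Tm a) ⁻¹' G := ⟨_, rfl⟩
  have hG1m : MeasurableSet G1 := by
    rw [hG1]
    exact Finset.measurableSet_biInter _ fun a _ => hTm a hG
  have hPG1 : (Measure.infinitePi fun _ : Zd d => gaussianReal 0 1).real G1ᶜ ≤
      (3 * R) ^ d * Real.exp (-Real.exp (1 / 101 * y)) := by
    have e1 : G1ᶜ = ⋃ a ∈ LO.bx (0 : Zd d) ⌊R⌋₊, ((Tm a) ⁻¹' G)ᶜ := by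
      rw [hG1]
      simp only [Set.compl_iInter]
    rw [e1]
    refine (measureReal_biUnion_finset_le _ _).trans
      ((Finset.sum_le_sum fun a _ => hPG a).trans ?_)
    rw [Finset.sum_const, nsmul_eq_mul, LO.Em.card_bx]
    apply mul_le_mul_of_nonneg_right _ (by positivity)
    push_cast
    apply pow_le_pow_left₀ (by positivity)
    have := Nat.floor_le (show 0 ≤ R by linarith)
    linarith
  refine ⟨G1 ∩ A, hG1m.inter hAm, ?_, ?_⟩
  · have h2 := probReal_add_probReal_compl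
      (μ := Measure.infinitePi fun _ : Zd d => gaussianReal 0 1) (hG1m.inter hAm)
    have h4 : (Measure.infinitePi fun _ : Zd d => gaussianReal 0 1).real (G1 ∩ A)ᶜ ≤
        (Measure.infinitePi fun _ : Zd d => gaussianReal 0 1).real G1ᶜ +
        (Measure.infinitePi fun _ : Zd d => gaussianReal 0 1).real Aᶜ := by
      rw [Set.compl_inter]
      exact measureReal_union_le _ _
    linarith
  · intro ξ hξ a ha
    have hξ1 : (fun x => cl B (ξ (x + a))) ∈ G := by
      have h1 := hξ.1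
      rw [hG1] at h1
      have h2 := Set.mem_iInter₂.1 h1 a (Pool.Agent.W788.Gen3.norm_zd a R ha)
      rw [Set.mem_preimage, hTx] at h2
      exact h2
    have hξ2 : ∀ x, ‖x‖ ≤ ρ → |ξ x| ≤ B := by
      intro x hx
      have h1 := hξ.2
      rw [hA] at h1
      exact Set.mem_iInter₂.1 h1 x (Pool.Agent.W788.Gen3.norm_zd x ρ hx)
    have hξ3 : (fun x => ξ (x + a) / B) ∈ G :=
      hcyl (fun x => cl B (ξ (x + a))) (fun x => ξ (x + a) / B) (fun x hx => cl_eq hB0 (hξ2 _ (by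
        refine (norm_add_le _ _).trans ?_
        linarith))) hξ1
    have h5 := hLL _ hξ3
    intro E hE η hη1 hη2 u hu p hp
    refine h5 E hE η hη1 hη2 u ?_ p hp
    have e1 : (fun x => -(Real.exp (-1 * y) * (ξ (x + a) / B))) =
        fun x => -(Real.exp (-(1000 / 999) * y) * ξ (x + a)) := by
      funext x
      have e2 : Real.exp (-1 * y) = Real.exp (-(1000 / 999) * y) * B := by
        rw [hB, ← Real.exp_add]
        congr 1
        ring
      rw [e2]
      field_simp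
    rw [e1]
    exact hu

end Pool.Agent.V11324.GD
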