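import Pool.Agent.V11324.GD.Gu
import Pool.Agent.V11324.GD.Det

/-! The diffusion profile in real time for Gaussian disorder. -/

set_option autoImplicit false
set_option linter.unusedSectionVars false

open scoped BigOperators Topology
open MeasureTheory ProbabilityTheory Filter Set

namespace Pool.Agent.V11324.GD

open Pool.Agent.W788.BK
open Pool.Agent.H4R2.LO (Zd)
open Pool.Agent.TH794.QD (Sol La GF F0 F1 hol0 hol1)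
open Pool.Agent.TH794.QE (Rs RegE BAmp bamp0 bamp1 lim3)
open Pool.Agent.TH794.HK (ph Tg EngK engK3)
open Pool.Agent.V11260.QT

/-- the boundary values -/
theorem g_lim (hES : S_ES) (hTH : S_THIRD) (hFL : S_FLUCT) (hIN : S_INV)
    (hSU : S_SUP) (hQB : S_QB) (hLO : S_LOW) (hAD : S_ADM) (hFA : S_FAC) (hO : S_OSC)
    (d : ℕ) (hd : 3 ≤ d) : ∀ E, E ∈ S0 d →
      Tendsto (fun t : ℝ => GF (F0 d) ((E : ℂ) + (t : ℂ) * Complex.I)) (𝓝[>] 0)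
        (𝓝 (GF (F0 d) (E : ℂ))) ∧
      Tendsto (fun t : ℝ => GF (F1 d) ((E : ℂ) + (t : ℂ) * Complex.I)) (𝓝[>] 0)
        (𝓝 (GF (F1 d) (E : ℂ))) ∧
      0 < (GF (F1 d) (E : ℂ)).im ∧ (GF (F1 d) (E : ℂ)).im ≤ (GF (F0 d) (E : ℂ)).im := by
  rintro E ⟨-, hE⟩
  obtain ⟨κ, hκ⟩ : ∃ κ, κ = min 1 (2 * d - |E|) := ⟨_, rfl⟩
  have hκ0 : 0 < κ := by
    rw [hκ]
    exact lt_min one_pos (by linarith)
  have hκ1 : κ ≤ 1 := by rw [hκ]; exact min_le_left _ _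
  have hk2 : |E| ≤ 2 * d - κ := by
    have : κ ≤ 2 * d - |E| := by rw [hκ]; exact min_le_right _ _
    linarith
  obtain ⟨⟨m, hm, hl⟩, -⟩ := engK3 hES hTH hFL hIN hSU hQB hLO hAD hFA hO d hd κ hκ0 hκ1
  obtain ⟨h1, h2⟩ := hl E hk2
  exact ⟨lim3 _ _ (hol0 hO d hd) E, lim3 _ _ (hol1 hO d hd) E, by linarith, h2⟩

/-- **real time** -/
theorem gaussT (hES : S_ES) (hTH : S_THIRD) (hFL : S_FLUCT) (hIN : S_INV)
    (hSU : S_SUP) (hQB : S_QB) (hLO : S_LOW) (hAD : S_ADM) (hFA : S_FAC) (hO : S_OSC)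
    (d : ℕ) (hd : 3 ≤ d) (K ε : ℝ) (hK : 0 ≤ K) (hε : 0 < ε) :
    ∃ c0 : ℝ, 0 < c0 ∧ ∀ σ : ℝ, 0 < σ → σ ≤ c0 →
      ∃ G : Set (Zd d → ℝ), MeasurableSet G ∧
        1 - Real.exp (-σ ^ (-(1 / 600) : ℝ)) ≤
          (Measure.infinitePi fun _ : Zd d => gaussianReal 0 1).real G ∧
        ∀ ξ ∈ G, ∀ a : Zd d, ‖a‖ ≤ Real.exp (σ ^ (-(1 / 600) : ℝ)) →
          ∀ ψ, Sol d (fun x => -(σ * ξ x)) a ψ → ∀ T : ℝ, σ ^ (-(2 + 1 / 79) : ℝ) ≤ T →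
          T ≤ σ ^ (-(2 + 1 / 45) : ℝ) → ∀ p : Fin d → ℝ, (∑ i, p i ^ 2) * T ≤ K * σ ^ 2 →
            |∫ s in Ioc (0 : ℝ) T, (Aw (wc p a) (ψ s) -
              (1 + Lp d (fun E => GF (F0 d) (E : ℂ)) (fun E => GF (F1 d) (E : ℂ))
                (2 * (∑ i, p i ^ 2) / σ ^ 2 * s)))| ≤ ε * T ∧
            |∫ s in Ioc (0 : ℝ) T, (Aw (ws p a) (ψ s) - 1)| ≤ ε * T := by
  obtain ⟨-, -, hdet⟩ := prof_det hO d (by omega) (fun E => GF (F0 d) (E : ℂ))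
    (fun E => GF (F1 d) (E : ℂ))
    (g_lim hES hTH hFL hIN hSU hQB hLO hAD hFA hO d hd)
  obtain ⟨n, κ, ev, hκ, hκ1, hev, hdet⟩ := hdet ε hε
  obtain ⟨c1, hc1, hL⟩ := gaussL hES hTH hFL hIN hSU hQB hLO hAD hFA hO d hd κ hκ hκ1 (2 * K)
    (by positivity)
  obtain ⟨c2, hc2, hnum⟩ := ev_ex ((small_ev 1 (1 / 201) ev
    (by norm_num) (by positivity)).and
    ((pow_ev (((n : ℝ) + 1) / 2) (2 + 1 / 79) (2 + 1 / 80) (by norm_num)).and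
    (pow_ev 2 (2 + 1 / 44) (2 + 1 / 45) (by norm_num))))
  refine ⟨min c1 c2, lt_min hc1 hc2, fun c hc hcc => ?_⟩
  obtain ⟨n1, n2, n3⟩ := hnum c hc (hcc.trans (min_le_right _ _))
  rw [one_mul] at n1
  obtain ⟨G, hG, hP, hGL⟩ := hL c hc (hcc.trans (min_le_left _ _))
  refine ⟨G, hG, hP, fun ω hω a ha ψ hψ T hT1 hT2 p hp => ?_⟩
  have hT : 0 < T := lt_of_lt_of_le (Real.rpow_pos_of_pos hc _) hT1
  have hc2' : 0 < c ^ 2 := by positivity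
  refine hdet _ a ψ hψ 0 (c ^ 2) T hc2' hT p fun k hk E hE u hu => ?_
  obtain ⟨P, hPdef⟩ : ∃ P, P = ∑ i, p i ^ 2 := ⟨_, rfl⟩
  have hP0 : 0 ≤ P := by rw [hPdef]; positivity
  have hkn : (k : ℝ) ≤ n := by exact_mod_cast hk
  have hk0 : (0 : ℝ) ≤ k := Nat.cast_nonneg k
  have k1 : c ^ (2 + 1 / 44 : ℝ) ≤ ((k : ℝ) + 1) / (2 * T) := by
    rw [le_div_iff₀ (by positivity)]
    have h1 : c ^ (2 + 1 / 45 : ℝ) * T ≤ 1 := by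
      calc c ^ (2 + 1 / 45 : ℝ) * T ≤ c ^ (2 + 1 / 45 : ℝ) * c ^ (-(2 + 1 / 45) : ℝ) := by gcongr
        _ = 1 := by rw [← Real.rpow_add hc]; norm_num
    calc c ^ (2 + 1 / 44 : ℝ) * (2 * T) = (2 * c ^ (2 + 1 / 44 : ℝ)) * T := by ring
      _ ≤ c ^ (2 + 1 / 45 : ℝ) * T := by gcongr
      _ ≤ 1 := h1
      _ ≤ (k : ℝ) + 1 := by linarith
  have k2 : ((k : ℝ) + 1) / (2 * T) ≤ c ^ (2 + 1 / 80 : ℝ) := by
    rw [div_le_iff₀ (by positivity)]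
    have h1 : 1 ≤ c ^ (2 + 1 / 79 : ℝ) * T := by
      calc (1 : ℝ) = c ^ (2 + 1 / 79 : ℝ) * c ^ (-(2 + 1 / 79) : ℝ) := by
            rw [← Real.rpow_add hc]; norm_num
        _ ≤ c ^ (2 + 1 / 79 : ℝ) * T := by gcongr
    have h2 : ((n : ℝ) + 1) / 2 * 1 ≤ ((n : ℝ) + 1) / 2 * (c ^ (2 + 1 / 79 : ℝ) * T) := by gcongr
    have h3 : ((n : ℝ) + 1) / 2 * (c ^ (2 + 1 / 79 : ℝ) * T) ≤ c ^ (2 + 1 / 80 : ℝ) * T := by
      rw [← mul_assoc]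
      gcongr
    linarith
  have k3 : P ≤ 2 * K * (((k : ℝ) + 1) / (2 * T) * c ^ 2) := by
    have h1 : 2 * K * (((k : ℝ) + 1) / (2 * T) * c ^ 2) = K * c ^ 2 * ((k : ℝ) + 1) / T := by
      field_simp
    rw [h1, le_div_iff₀ hT]
    rw [← hPdef] at hp
    refine hp.trans ?_
    have : 0 ≤ K * c ^ 2 := by positivity
    nlinarith
  rw [hPdef] at k3
  rw [zero_sub] at hu
  have hη0 : 0 < ((k : ℝ) + 1) / (2 * T) := by positivity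
  have hlaw := hGL ω hω a ha E hE.2 _ k1 k2 u hu
  have z1 := one_law a u (((k : ℝ) + 1) / (2 * T)) (fun E => GF (F0 d) (E : ℂ))
    (fun E => GF (F1 d) (E : ℂ)) (((k : ℝ) + 1) / (2 * T)) (c ^ 2) E (c ^ (1 / 201 : ℝ))
    (hlaw (fun _ => 0) (by
      simp only [ne_eq, OfNat.ofNat_ne_zero, not_false_eq_true, zero_pow, Finset.sum_const_zero]
      positivity))
  obtain ⟨z2, z3⟩ := ph_norm_law p a u hu.sq (((k : ℝ) + 1) / (2 * T)) _ _ _ (hlaw p k3) z1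
  exact ⟨z1.trans n1, z2.trans (by linarith), z3.trans (by linarith)⟩

end Pool.Agent.V11324.GD
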