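import Pool.Agent.V11324.GD.Gt

/-! The characteristic function of the resolvent for Gaussian disorder, in terms of the coupling
constant. -/

set_option autoImplicit false
set_option linter.unusedSectionVars false

open scoped BigOperators Topology
open MeasureTheory ProbabilityTheory Filter Set

namespace Pool.Agent.V11324.GD

open Pool.Agent.W788.LD.Spec (S)
open Pool.Agent.W788.BK
open Pool.Agent.H4R2
open Pool.Agent.H4R2.LO (Zd)
open Pool.Agent.W788.BK.Num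
open Pool.Agent.TH794.LL2 (hexle)
open Pool.Agent.TH794.QD
open Pool.Agent.TH794.QE
open Pool.Agent.TH794.HK
open Pool.Agent.V11324.GL

variable {d : ℕ}

/-- translated Green functions -/
theorem rs_shift {V : Zd d → ℝ} {a : Zd d} {e η : ℝ} {u : Zd d → ℂ} (h : Rs d V a e η u) :
    Rs d (fun x => V (x + a)) 0 e η (fun x => u (x + a)) := by
  refine ⟨?_, fun x => ?_⟩
  · have h1 : Summable ((fun x => ‖u x‖ ^ 2) ∘ (Equiv.addRight a)) :=
      (Equiv.addRight a).summable_iff.2 h.sq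
    exact h1
  · have h1 := h.eq (x + a)
    have h4 : (x + a = a) = (x = 0) := by
      apply propext
      constructor
      · intro h
        exact left_eq_add.1 (by rw [add_comm]; exact h.symm)
      · intro h
        rw [h, zero_add]
    simp only [h4] at h1
    rw [← h1]
    unfold S
    have h2 : ∀ i : Fin d, x + Pi.single i 1 + a = x + a + Pi.single i 1 := fun i => by abel
    have h3 : ∀ i : Fin d, x - Pi.single i 1 + a = x + a - Pi.single i 1 := fun i => by abel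
    simp only [h2, h3]

theorem ph_shift (p : Fin d → ℝ) (a : Zd d) (u : Zd d → ℂ) :
    ∑' x, ph p x * ((‖u (x + a)‖ ^ 2 : ℝ) : ℂ) =
      ∑' x, ph p (x - a) * ((‖u x‖ ^ 2 : ℝ) : ℂ) := by
  rw [← (Equiv.addRight a).tsum_eq (fun x => ph p (x - a) * ((‖u x‖ ^ 2 : ℝ) : ℂ))]
  refine tsum_congr fun x => ?_
  simp only [Equiv.coe_addRight, add_sub_cancel_right]

/-- **the law for Gaussian disorder** -/
theorem gaussL (hES : S_ES) (hTH : S_THIRD) (hFL : S_FLUCT) (hIN : S_INV)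
    (hSU : S_SUP) (hQB : S_QB) (hLO : S_LOW) (hAD : S_ADM) (hFA : S_FAC) (hO : S_OSC)
    (d : ℕ) (hd : 3 ≤ d) (κ : ℝ) (hκ : 0 < κ) (hκ1 : κ ≤ 1) (K : ℝ) (hK : 0 ≤ K) :
    ∃ c0 : ℝ, 0 < c0 ∧ ∀ σ : ℝ, 0 < σ → σ ≤ c0 →
      ∃ G : Set (Zd d → ℝ), MeasurableSet G ∧
        1 - Real.exp (-σ ^ (-(1 / 600) : ℝ)) ≤
          (Measure.infinitePi fun _ : Zd d => gaussianReal 0 1).real G ∧
        ∀ ξ ∈ G, ∀ a : Zd d, ‖a‖ ≤ Real.exp (σ ^ (-(1 / 600) : ℝ)) →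
        ∀ E : ℝ, |E| ≤ 2 * d - κ → ∀ η : ℝ, σ ^ (2 + 1 / 44 : ℝ) ≤ η →
        η ≤ σ ^ (2 + 1 / 80 : ℝ) →
        ∀ u : Zd d → ℂ, Rs d (fun x => -(σ * ξ x)) a (-E) η u →
        ∀ p : Fin d → ℝ, ∑ i, p i ^ 2 ≤ K * (η * σ ^ 2) →
          ‖((η : ℝ) : ℂ) * ∑' x, ph p (x - a) * ((‖u x‖ ^ 2 : ℝ) : ℂ) -
            ((Tg (fun E => GF (F0 d) (E : ℂ)) (fun E => GF (F1 d) (E : ℂ)) η (σ ^ 2) E p : ℝ)
              : ℂ)‖ ≤ σ ^ (1 / 201 : ℝ) := by
  obtain ⟨y0, h0⟩ := gaussK hES hTH hFL hIN hSU hQB hLO hAD hFA hO d hd κ hκ hκ1 (2 * K)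
    (by positivity)
  obtain ⟨⟨m, hm, hl⟩, -⟩ := engK3 hES hTH hFL hIN hSU hQB hLO hAD hFA hO d hd κ hκ hκ1
  obtain ⟨y2, hy2⟩ := Filter.eventually_atTop.1 ((eventually_ge_atTop (1 : ℝ)).and
    ((ev2 (|Real.log (2 * K * (4 * Real.exp 2) + 1)| + 1) 0 (1 / 999) 1 (by norm_num)).and
    (ev3 2 (-(1 / 200)) (-(1000 / 200799)) (by norm_num))))
  obtain ⟨y1, hy1⟩ : ∃ y1, y1 = max (max y0 y2) 1 := ⟨_, rfl⟩
  refine ⟨Real.exp (-(1000 / 999) * y1), Real.exp_pos _, ?_⟩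
  intro σ hσ hσ0
  obtain ⟨y, hy⟩ : ∃ y, y = -(999 / 1000) * Real.log σ := ⟨_, rfl⟩
  have hlogc : Real.log σ = -(1000 / 999) * y := by
    rw [hy]
    ring
  have hyy1 : y1 ≤ y := by
    have h1 := Real.log_le_log hσ hσ0
    rw [Real.log_exp, hlogc] at h1
    linarith
  have hyy0 : y0 ≤ y := le_trans (by rw [hy1]; exact (le_max_left _ _).trans (le_max_left _ _)) hyy1
  have hyy2 : y2 ≤ y := le_trans (by rw [hy1]; exact (le_max_right _ _).trans (le_max_left _ _))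
    hyy1
  obtain ⟨hyone, n1, n3⟩ := hy2 y hyy2
  simp only [pow_one, zero_mul, Real.exp_zero, mul_one] at n1
  have hrp : ∀ p q : ℝ, q = -(1000 / 999) * p → σ ^ p = Real.exp (q * y) := by
    intro p q hpq
    rw [Real.rpow_def_of_pos hσ, hlogc, hpq]
    congr 1
    ring
  have e1 : σ ^ (-(1 / 600) : ℝ) = Real.exp (5 / 2997 * y) := hrp _ _ (by norm_num)
  have e2 : σ ^ (2 + 1 / 44 : ℝ) = Real.exp (-(22250 / 10989) * y) := hrp _ _ (by norm_num)
  have e2' : σ ^ (2 + 1 / 80 : ℝ) = Real.exp (-(4025 / 1998) * y) := hrp _ _ (by norm_num)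
  have e3 : σ ^ (1 / 201 : ℝ) = Real.exp (-(1000 / 200799) * y) := hrp _ _ (by norm_num)
  have e6 : σ = Real.exp (-(1000 / 999) * y) := by
    rw [← hlogc, Real.exp_log hσ]
  have e7 : σ ^ 2 = Real.exp (-(2000 / 999) * y) := by
    rw [e6, ← Real.exp_nat_mul]
    congr 1
    push_cast
    ring
  obtain ⟨W, hW1, hW2, hW3, G, hG, hP, hL⟩ := h0 y hyy0
  rw [e1, e2, e2', e3]
  refine ⟨G, hG, hP, fun ξ hξ a ha E hE η hη1 hη2 u hu p hp => ?_⟩
  have hη0 : 0 < η := lt_of_lt_of_le (Real.exp_pos _) hη1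
  have hη3 : Real.exp (-(81 / 40) * y) ≤ η := (hexle hyone _ _ (by norm_num)).trans hη1
  have hW0 : 0 < W := by linarith
  have hσ2 : 0 < σ ^ 2 := by positivity
  have h1 := hL ξ hξ a ha E hE η hη3 hη2 (fun x => u (x + a)) (by
    rw [← e6]
    exact rs_shift hu) p (by
    rw [← e7]
    refine hp.trans ?_
    have h2 : K * (η * σ ^ 2) ≤ K * (η * σ ^ 2) * (2 * W) :=
      le_mul_of_one_le_right (by positivity) (by linarith)
    refine h2.trans (le_of_eq (by ring)))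
  rw [ph_shift, ← e7] at h1
  obtain ⟨q2, q3⟩ := hl E hE
  have hTd := Tg_diff (fun E => GF (F0 d) (E : ℂ)) (fun E => GF (F1 d) (E : ℂ)) (η * W) η (σ ^ 2)
    E (η * (1 - W)) K p (by positivity) (mul_le_of_le_one_right hη0.le hW2)
    (by linarith) hσ2 hK hp (by linarith) (by linarith) q3
  have e4 : Tg (fun E => GF (F0 d) (E : ℂ)) (fun E => GF (F1 d) (E : ℂ)) (η * W) (σ ^ 2) E p =
      Tg (fun E => GF (F0 d) (E : ℂ)) (fun E => GF (F1 d) (E : ℂ)) η (σ ^ 2 * W) E p := by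
    unfold Tg
    have : η * W * σ ^ 2 = η * (σ ^ 2 * W) := by ring
    rw [this]
  rw [e4] at hTd
  have hTd2 : K * (η * (1 - W) * (η * W)⁻¹) ≤ Real.exp (-(1 / 200) * y) := by
    have e5 : K * (η * (1 - W) * (η * W)⁻¹) = K * ((1 - W) / W) := by
      field_simp
    rw [e5]
    have h3 : (1 - W) / W ≤ 2 * (1 - W) := by
      rw [div_le_iff₀ hW0]
      nlinarith
    obtain ⟨B, hB⟩ : ∃ B, B = Real.exp (1 / 999 * y) := ⟨_, rfl⟩
    rw [← hB] at hW3 n1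
    obtain ⟨C, hC⟩ : ∃ C, C = 2 * K * (4 * Real.exp 2) + 1 := ⟨_, rfl⟩
    have hC1 : 1 ≤ C := by
      rw [hC]
      have : 0 ≤ 2 * K * (4 * Real.exp 2) := by positivity
      linarith
    rw [← hC] at n1
    have h4 : Real.log C + 1 / 200 * y ≤ B := by
      have h5 := le_abs_self (Real.log C)
      have h6 := abs_nonneg (Real.log C)
      nlinarith
    calc K * ((1 - W) / W) ≤ K * (2 * (1 - W)) := by gcongr
      _ ≤ K * (2 * (4 * Real.exp 2 * Real.exp (-B))) := by gcongr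
      _ = (2 * K * (4 * Real.exp 2)) * Real.exp (-B) := by ring
      _ ≤ C * Real.exp (-B) := by
          have := Real.exp_pos (-B)
          rw [hC]
          nlinarith
      _ = Real.exp (Real.log C + -B) := by
          rw [Real.exp_add, Real.exp_log (by linarith)]
      _ ≤ _ := Real.exp_le_exp.2 (by linarith)
  obtain ⟨A, hA⟩ : ∃ A, A = ((η : ℝ) : ℂ) * ∑' x, ph p (x - a) * ((‖u x‖ ^ 2 : ℝ) : ℂ) := ⟨_, rfl⟩
  rw [← hA] at h1 ⊢
  have e10 : A - ((Tg (fun E => GF (F0 d) (E : ℂ)) (fun E => GF (F1 d) (E : ℂ)) η (σ ^ 2) E p : ℝ)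
        : ℂ) =
      (A - ((Tg (fun E => GF (F0 d) (E : ℂ)) (fun E => GF (F1 d) (E : ℂ)) η (σ ^ 2 * W) E p : ℝ)
        : ℂ)) +
      ((Tg (fun E => GF (F0 d) (E : ℂ)) (fun E => GF (F1 d) (E : ℂ)) η (σ ^ 2 * W) E p -
        Tg (fun E => GF (F0 d) (E : ℂ)) (fun E => GF (F1 d) (E : ℂ)) η (σ ^ 2) E p : ℝ) : ℂ) := by
    push_cast
    ring
  rw [e10]
  refine (norm_add_le _ _).trans ?_
  rw [Complex.norm_real, Real.norm_eq_abs]
  linarith

end Pool.Agent.V11324.GD
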