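import Pool.Agent.V11324.GD.ParK
import Pool.Agent.TH794.HK.FinN

/-! The characteristic function of the resolvent at one site, for all scales simultaneously. -/

set_option autoImplicit false
set_option linter.unusedSectionVars false

open scoped BigOperators Topology
open MeasureTheory Filter Set

namespace Pool.Agent.V11324.GD

open Pool.Agent.W788.BK
open Pool.Agent.H4R2.LO (Zd)
open Pool.Agent.W788.BK.Num
open Pool.Agent.TH794.LL2 (hexle)
open Pool.Agent.TH794.QD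
open Pool.Agent.TH794.QE
open Pool.Agent.TH794.HK

/-- the engine in dimension at least three -/
theorem engKc3 (hES : S_ES) (hTH : S_THIRD) (hFL : S_FLUCT) (hIN : S_INV)
    (hSU : S_SUP) (hQB : S_QB) (hLO : S_LOW) (hAD : S_ADM) (hFA : S_FAC) (hO : S_OSC)
    (d : ℕ) (hd : 3 ≤ d) (κ : ℝ) (hκ : 0 < κ) (hκ1 : κ ≤ 1) (Kp : ℝ) (hKp : 0 ≤ Kp) :
    ∃ y0 : ℝ, ∀ y : ℝ, y0 ≤ y →
    ∀ (ν : Measure ℝ), IsProbabilityMeasure ν → (∀ᵐ s ∂ν, |s| ≤ 1) → ∫ s, s ∂ν = 0 →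
    ∀ Vv : ℝ, ∫ s, s ^ 2 ∂ν = Vv → 0 < Vv →
    ∀ t : ℝ, Real.exp (-(81 / 40) * y) ≤ t → t ≤ Real.exp (-(161 / 80) * y) →
    t ≤ Real.exp (-(1 / 80) * y) * (Real.exp (-2 * y) * Vv) →
    ∃ G : Set (Zd d → ℝ), MeasurableSet G ∧
      1 - Real.exp (-Real.exp (y / 100)) ≤ (Measure.infinitePi fun _ : Zd d => ν).real G ∧
      (∀ ξ ξ' : Zd d → ℝ, (∀ x, ‖x‖ ≤ 1 + Real.exp (7 * y) → ξ x = ξ' x) → ξ ∈ G → ξ' ∈ G) ∧
      ∀ ξ ∈ G, QLawK d (fun E => |E| ≤ 2 * d - κ)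
        (Tg (fun E => GF (F0 d) (E : ℂ)) (fun E => GF (F1 d) (E : ℂ)) t (Real.exp (-2 * y) * Vv))
        (Real.exp (-1 * y)) 1 t (Real.exp (-10 * y))
        (Kp * (t * (Real.exp (-2 * y) * Vv))) (Real.exp (-(1 / 180) * y)) ξ := by
  have hd0 : (0 : ℝ) ≤ d := Nat.cast_nonneg d
  have hreg : ∀ E : ℝ, |E| ≤ 2 * d - κ → RegE d κ E := fun E hE => Or.inr ⟨hd, by linarith⟩
  obtain ⟨m, hm, hl⟩ := low_lim d (by omega) κ hκ hκ1 (fun E => GF (F1 d) (E : ℂ))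
    fun E _ => lim3 _ _ (hol1 hO d hd) E
  obtain ⟨CQ, hCQ, hdat⟩ := dat3 hQB hO d hd
  exact engineKc hES hTH hFL hIN hSU hLO hAD hFA d (by omega) (fun _ => True)
    (fun _ => True) (fun E => |E| ≤ 2 * d - κ) C1 CQ
    (Pool.Agent.TH794.QD.CH d) (fun E => GF (F0 d) (E : ℂ)) (fun E => GF (F1 d) (E : ℂ)) hdat
    C1_ge hCQ (CH_nonneg d) 1 one_pos
    (fun E hE => ⟨by linarith, trivial, fun x hx => trivial⟩)
    (fun E x hE hx => trivial)
    1 (m / 2) Kp one_pos (by positivity) hKp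
    (fun E hE => by
      have h1 := hl E (hreg E hE) hE
      have h2 := (GF_im hO d hd (E : ℂ) (by simp)).2
      linarith)

/-- the law at one site, for the configuration `ξ` -/
def SLaw (d : ℕ) (κ K τ τ' s2 er lam : ℝ) (ξ : Zd d → ℝ) : Prop :=
  ∀ E : ℝ, |E| ≤ 2 * d - κ → ∀ η : ℝ, τ ≤ η → η ≤ τ' →
    ∀ u : Zd d → ℂ, Rs d (fun x => -(lam * ξ x)) 0 (-E) η u →
    ∀ p : Fin d → ℝ, ∑ i, p i ^ 2 ≤ K * (η * s2) →
      ‖((η : ℝ) : ℂ) * ∑' x, ph p x * ((‖u x‖ ^ 2 : ℝ) : ℂ) -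
        ((Tg (fun E => GF (F0 d) (E : ℂ)) (fun E => GF (F1 d) (E : ℂ)) η s2 E p : ℝ) : ℂ)‖ ≤ er

/-- **all scales** -/
theorem net (hES : S_ES) (hTH : S_THIRD) (hFL : S_FLUCT) (hIN : S_INV)
    (hSU : S_SUP) (hQB : S_QB) (hLO : S_LOW) (hAD : S_ADM) (hFA : S_FAC) (hO : S_OSC)
    (d : ℕ) (hd : 3 ≤ d) (κ : ℝ) (hκ : 0 < κ) (hκ1 : κ ≤ 1) (K : ℝ) (hK : 0 ≤ K) :
    ∃ y0 : ℝ, ∀ y : ℝ, y0 ≤ y →
    ∀ (ν : Measure ℝ), IsProbabilityMeasure ν → (∀ᵐ s ∂ν, |s| ≤ 1) → ∫ s, s ∂ν = 0 →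
    ∀ Vv : ℝ, ∫ s, s ^ 2 ∂ν = Vv → 0 < Vv →
    ∀ τ' : ℝ, Real.exp (-(81 / 40) * y) ≤ τ' → τ' ≤ Real.exp (-(161 / 80) * y) →
    τ' ≤ Real.exp (-(1 / 80) * y) * (Real.exp (-2 * y) * Vv) →
    ∃ G : Set (Zd d → ℝ), MeasurableSet G ∧
      1 - Real.exp (-Real.exp (1 / 101 * y)) ≤ (Measure.infinitePi fun _ : Zd d => ν).real G ∧
      (∀ ξ ξ' : Zd d → ℝ, (∀ x, ‖x‖ ≤ 1 + Real.exp (7 * y) → ξ x = ξ' x) → ξ ∈ G → ξ' ∈ G) ∧
      ∀ ξ ∈ G, SLaw d κ K (Real.exp (-(81 / 40) * y)) τ' (Real.exp (-2 * y) * Vv)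
        (Real.exp (-(1 / 200) * y)) (Real.exp (-1 * y)) ξ := by
  obtain ⟨y0, h0⟩ := engKc3 hES hTH hFL hIN hSU hQB hLO hAD hFA hO d hd κ hκ hκ1 (2 * K)
    (by positivity)
  obtain ⟨⟨m, hm, hl⟩, -⟩ := engK3 hES hTH hFL hIN hSU hQB hLO hAD hFA hO d hd κ hκ hκ1
  obtain ⟨y2, hy2⟩ := Filter.eventually_atTop.1
    ((ev2 16 (1 / 101) (1 / 100) 1 (by norm_num)).and
    ((ev2 2 (-(1 / 180)) (-(1 / 200)) 0 (by norm_num)).and
    (ev2 (2 * K) (-(319 / 40)) (-(1 / 200)) 0 (by norm_num))))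
  obtain ⟨y1, hy1⟩ : ∃ y1, y1 = max (max y0 y2) 1 := ⟨_, rfl⟩
  refine ⟨y1, fun y hyy1 ν hνp hνb hν0 Vv hν2 hV0 τ' hττ hτl hτs => ?_⟩
  have hyy0 : y0 ≤ y := le_trans (by rw [hy1]; exact (le_max_left _ _).trans (le_max_left _ _)) hyy1
  have hyy2 : y2 ≤ y := le_trans (by rw [hy1]; exact (le_max_right _ _).trans (le_max_left _ _))
    hyy1
  have hyone : 1 ≤ y := le_trans (by rw [hy1]; exact le_max_right _ _) hyy1
  obtain ⟨n1, n3, n4⟩ := hy2 y hyy2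
  simp only [pow_zero, mul_one, pow_one] at n1 n3 n4
  have e8 : Real.exp (y / 100) = Real.exp (1 / 100 * y) := by
    congr 1
    ring
  obtain ⟨s2, hs2⟩ : ∃ s2, s2 = Real.exp (-2 * y) * Vv := ⟨_, rfl⟩
  rw [← hs2] at hτs ⊢
  have hs20 : 0 < s2 := by rw [hs2]; positivity
  -- the net
  obtain ⟨τ, hτ⟩ : ∃ τ, τ = Real.exp (-(81 / 40) * y) := ⟨_, rfl⟩
  obtain ⟨ε, hε⟩ : ∃ ε, ε = Real.exp (-10 * y) := ⟨_, rfl⟩
  have hτ0 : 0 < τ := by rw [hτ]; positivity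
  have hε0 : 0 < ε := by rw [hε]; positivity
  rw [← hτ] at hττ ⊢
  have hετ : ε ≤ τ := by
    rw [hε, hτ]
    exact hexle hyone _ _ (by norm_num)
  have hτ1 : τ' ≤ 1 := hτl.trans (Real.exp_le_one_iff.2 (by linarith))
  obtain ⟨tk, htk⟩ : ∃ tk : ℕ → ℝ, tk = fun k : ℕ => min (τ + ε * (k : ℝ)) τ' := ⟨_, rfl⟩
  have htkk : ∀ k, tk k = min (τ + ε * k) τ' := fun k => by rw [htk]
  have htkl : ∀ k, τ ≤ tk k := by
    intro k
    rw [htkk]
    refine le_min ?_ hττ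
    have : 0 ≤ ε * (k : ℝ) := by positivity
    linarith
  have htku : ∀ k, tk k ≤ τ' := by
    intro k
    rw [htkk]
    exact min_le_right _ _
  obtain ⟨Kn, hKn⟩ : ∃ Kn : ℕ, Kn = ⌈Real.exp (10 * y)⌉₊ := ⟨_, rfl⟩
  have hK1 : Real.exp (10 * y) ≤ Kn := by
    rw [hKn]
    exact Nat.le_ceil _
  have hK2 : (Kn : ℝ) + 1 ≤ Real.exp (13 * y + 2) := by
    have h1 := Nat.ceil_lt_add_one (Real.exp_pos (10 * y)).le
    rw [← hKn] at h1
    have h2 : (1 : ℝ) ≤ Real.exp (13 * y) := Real.one_le_exp (by linarith)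
    have h5 : Real.exp (10 * y) ≤ Real.exp (13 * y) := Real.exp_le_exp.2 (by linarith)
    have h3 := Real.add_one_le_exp (2 : ℝ)
    rw [Real.exp_add]
    have h4 : Real.exp (13 * y) * 3 ≤ Real.exp (13 * y) * Real.exp 2 := by
      apply mul_le_mul_of_nonneg_left _ (Real.exp_pos (13 * y)).le
      linarith only [h3]
    linarith only [h1, h2, h4, h5]
  -- the events
  choose Gk hGm hGP hcyl hGL using fun k : ℕ => h0 y hyy0 ν hνp hνb hν0 Vv hν2 hV0 (tk k)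
    (by rw [← hτ]; exact htkl k) ((htku k).trans hτl) (by rw [← hs2]; exact (htku k).trans hτs)
  rw [← hs2] at hGL
  obtain ⟨Γ, hΓ⟩ : ∃ Γ, Γ = ⋂ k ∈ Finset.range (Kn + 1), Gk k := ⟨_, rfl⟩
  have hm : MeasurableSet Γ := by
    rw [hΓ]
    exact Finset.measurableSet_biInter _ fun k _ => hGm k
  refine ⟨Γ, hm, ?_, ?_, ?_⟩
  · have h2 := probReal_add_probReal_compl (μ := Measure.infinitePi fun _ : Zd d => ν) hm
    have h3 : (Measure.infinitePi fun _ : Zd d => ν).real Γᶜ ≤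
        Real.exp (-Real.exp (1 / 101 * y)) := by
      have e8' : Γᶜ = ⋃ k ∈ Finset.range (Kn + 1), (Gk k)ᶜ := by
        rw [hΓ]
        simp only [Set.compl_iInter]
      rw [e8']
      have h4 : ∀ k, (Measure.infinitePi fun _ : Zd d => ν).real (Gk k)ᶜ ≤
          Real.exp (-Real.exp (1 / 100 * y)) := by
        intro k
        have h5 := probReal_add_probReal_compl (μ := Measure.infinitePi fun _ : Zd d => ν) (hGm k)
        have h6' := hGP k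
        rw [e8] at h6'
        linarith
      refine (measureReal_biUnion_finset_le _ _).trans
        ((Finset.sum_le_sum fun k _ => h4 k).trans ?_)
      rw [Finset.sum_const, Finset.card_range, nsmul_eq_mul]
      push_cast
      have h7 : 13 * y + 2 + Real.exp (1 / 101 * y) ≤ Real.exp (1 / 100 * y) := by
        have h8 : (1 : ℝ) ≤ Real.exp (1 / 101 * y) := Real.one_le_exp (by linarith)
        have h9 : y * 1 ≤ y * Real.exp (1 / 101 * y) := by gcongr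
        have h10 : 1 * Real.exp (1 / 101 * y) ≤ y * Real.exp (1 / 101 * y) := by gcongr
        have h11 : 1 ≤ y * Real.exp (1 / 101 * y) := by linarith only [h8, h10]
        have h12 : 16 * y * Real.exp (1 / 101 * y) = 16 * (y * Real.exp (1 / 101 * y)) := by ring
        linarith only [h9, h10, h11, h12, n1]
      calc ((Kn : ℝ) + 1) * Real.exp (-Real.exp (1 / 100 * y)) ≤
          Real.exp (13 * y + 2) * Real.exp (-Real.exp (1 / 100 * y)) := by gcongr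
        _ = Real.exp (13 * y + 2 - Real.exp (1 / 100 * y)) := by
            rw [← Real.exp_add]
            congr 1
        _ ≤ Real.exp (-Real.exp (1 / 101 * y)) := by
            apply Real.exp_le_exp.2
            linarith only [h7]
    linarith
  · intro ξ ξ' hxx hξ
    rw [hΓ] at hξ ⊢
    refine Set.mem_iInter₂.2 fun k hk => ?_
    exact hcyl k ξ ξ' hxx (Set.mem_iInter₂.1 hξ k hk)
  · intro ξ hωΓ E he η hηl hηu u hu p hp
    have hωk : ∀ k, k ≤ Kn → ξ ∈ Gk k := by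
      intro k hk
      rw [hΓ] at hωΓ
      exact Set.mem_iInter₂.1 hωΓ k (Finset.mem_range.2 (by omega))
    have hη0 : 0 < η := hτ0.trans_le hηl
    have hVx : ∀ x, (fun x => -(Real.exp (-1 * y) * ξ x)) x = 0 -
        Real.exp (-1 * y) * ξ x := by
      intro x
      ring
    -- the point of the net
    obtain ⟨k, hk⟩ : ∃ k : ℕ, k = ⌊(η - τ) / ε⌋₊ := ⟨_, rfl⟩
    have hq0 : 0 ≤ (η - τ) / ε := div_nonneg (by linarith) hε0.le
    have hk1 : (k : ℝ) ≤ (η - τ) / ε := by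
      rw [hk]
      exact Nat.floor_le hq0
    have hk2 : (η - τ) / ε < k + 1 := by
      rw [hk]
      exact Nat.lt_floor_add_one _
    rw [le_div_iff₀ hε0] at hk1
    rw [div_lt_iff₀ hε0] at hk2
    have hkt : tk k = τ + ε * k := by
      rw [htkk]
      apply min_eq_left
      linarith
    have hkK : k ≤ Kn := by
      have h1 : (k : ℝ) ≤ Kn := by
        have h2 : (k : ℝ) * ε ≤ 1 := by linarith
        have h3 : (k : ℝ) ≤ ε⁻¹ := by
          rw [← one_div, le_div_iff₀ hε0]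
          exact h2
        have h4 : ε⁻¹ = Real.exp (10 * y) := by
          rw [hε, ex_inv]
          norm_num
        rw [h4] at h3
        exact h3.trans hK1
      exact_mod_cast h1
    have htk1 : tk k ≤ η := by
      rw [hkt]
      linarith
    have htk2 : η ≤ tk k + ε := by
      rw [hkt]
      linarith
    have htk0 : 0 < tk k := hτ0.trans_le (htkl k)
    have h2t : η ≤ 2 * tk k := by
      have := htkl k
      linarith
    have hp2 : ∑ i, p i ^ 2 ≤ 2 * K * (tk k * s2) := by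
      refine hp.trans ?_
      calc K * (η * s2) ≤ K * (2 * tk k * s2) := by gcongr
        _ = _ := by ring
    have hls := rs_LS hu _ _ _ hVx
    rw [sub_neg_eq_add, zero_add] at hls
    have hlaw1 := hGL k _ (hωk k hkK) 0 (by simp) E he η htk1 (by rw [← hε]; exact htk2) _ _
      hls p hp2
    have e9 : (fun x => ph p (x - 0) * (((-(u x).re) ^ 2 + (u x).im ^ 2 : ℝ) : ℂ)) =
        fun x => ph p x * ((‖u x‖ ^ 2 : ℝ) : ℂ) := by
      funext x
      rw [← Complex.normSq_eq_norm_sq, Complex.normSq_apply, sub_zero]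
      congr 2
      ring
    rw [e9] at hlaw1
    obtain ⟨q2, q3⟩ := hl E he
    have hTd := Tg_diff (fun E => GF (F0 d) (E : ℂ)) (fun E => GF (F1 d) (E : ℂ)) (tk k) η s2 E ε K
      p htk0 htk1 htk2 hs20 hK hp (by linarith) (by linarith) q3
    obtain ⟨A, hA⟩ : ∃ A, A = ((η : ℝ) : ℂ) * ∑' x, ph p x * ((‖u x‖ ^ 2 : ℝ) : ℂ) := ⟨_, rfl⟩
    rw [← hA] at hlaw1 ⊢
    have e10 : A - ((Tg (fun E => GF (F0 d) (E : ℂ)) (fun E => GF (F1 d) (E : ℂ)) η s2 E p : ℝ)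
          : ℂ) =
        (A - ((Tg (fun E => GF (F0 d) (E : ℂ)) (fun E => GF (F1 d) (E : ℂ)) (tk k) s2 E p : ℝ)
          : ℂ)) +
        ((Tg (fun E => GF (F0 d) (E : ℂ)) (fun E => GF (F1 d) (E : ℂ)) (tk k) s2 E p -
          Tg (fun E => GF (F0 d) (E : ℂ)) (fun E => GF (F1 d) (E : ℂ)) η s2 E p : ℝ) : ℂ) := by
      push_cast
      ring
    rw [e10]
    have h5 : K * (ε * (tk k)⁻¹) ≤ K * Real.exp (-(319 / 40) * y) := by
      have h6 : (tk k)⁻¹ ≤ τ⁻¹ := inv_anti₀ hτ0 (htkl k)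
      calc K * (ε * (tk k)⁻¹) ≤ K * (ε * τ⁻¹) := by gcongr
        _ = _ := by
          rw [hε, hτ, ex_inv, ex_mul]
          norm_num
    refine (norm_add_le _ _).trans ?_
    rw [Complex.norm_real, Real.norm_eq_abs]
    linarith

end Pool.Agent.V11324.GD
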